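import Mathlib
import Pool.Agent.H531R2.Subst

/-!
# Divisibility of determinants by powers of the variable
-/

set_option autoImplicit false

namespace Pool.Agent.TH585.VF

open Finset Polynomial

/-- If the values at `0` of the rows `u i` are linearly independent and the combinations of the rows
of `M` with the coefficients `u i` are divisible by powers of `X`, then the determinant of `M` is
divisible by the product of these powers. -/
theorem local_div {n k : ℕ} (u : Fin k → Fin n → ℤ[X])
    (h : ∀ c : Fin k → ℤ, (∀ j, ∑ i, c i * (u i j).coeff 0 = 0) → c = 0)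
    (M : Matrix (Fin n) (Fin n) ℤ[X]) (s : Fin k → ℕ)
    (hs : ∀ i c, X ^ s i ∣ ∑ j, u i j * M j c) : X ^ (∑ i, s i) ∣ M.det := by
  classical
  obtain ⟨σ, hσ⟩ := Pool.Agent.H531R2.exists_minor k (fun i j => (u i j).coeff 0) h
  have hinj : Function.Injective σ := by
    intro a b hab
    by_contra hne
    apply hσ
    refine Matrix.det_zero_of_column_eq hne fun i => ?_
    simp only [Matrix.of_apply]
    rw [hab]
  let B : Matrix (Fin n) (Fin n) ℤ[X] := fun j =>
    if hj : ∃ t, σ t = j then u hj.choose else Pi.single j 1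
  let s' : Fin n → ℕ := fun j => if hj : ∃ t, σ t = j then s hj.choose else 0
  have hch : ∀ t, ∀ hj : ∃ t', σ t' = σ t, hj.choose = t := fun t hj => hinj hj.choose_spec
  have hB : ∀ t, B (σ t) = u t := by
    intro t
    have hj : ∃ t', σ t' = σ t := ⟨t, rfl⟩
    simp only [B]
    rw [dif_pos hj, hch t hj]
  have hs' : ∀ t, s' (σ t) = s t := by
    intro t
    have hj : ∃ t', σ t' = σ t := ⟨t, rfl⟩
    simp only [s']
    rw [dif_pos hj, hch t hj]
  have hB0 : ∀ j, (¬ ∃ t, σ t = j) → B j = Pi.single j 1 := by
    intro j hj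
    simp only [B]
    rw [dif_neg hj]
  have hs0 : ∀ j, (¬ ∃ t, σ t = j) → s' j = 0 := by
    intro j hj
    simp only [s']
    rw [dif_neg hj]
  have hsum : ∑ j, s' j = ∑ t, s t := by
    have h1 : ∑ t, s t = ∑ j ∈ univ.map ⟨σ, hinj⟩, s' j := by
      rw [Finset.sum_map]
      exact Finset.sum_congr rfl fun t _ => (hs' t).symm
    rw [h1]
    symm
    apply Finset.sum_subset (Finset.subset_univ _)
    intro j _ hj
    apply hs0
    rintro ⟨t, rfl⟩
    exact hj (Finset.mem_map.2 ⟨t, mem_univ _, rfl⟩)
  have hdvd : ∀ j c, X ^ s' j ∣ (B * M) j c := by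
    intro j c
    by_cases hj : ∃ t, σ t = j
    · obtain ⟨t, rfl⟩ := hj
      rw [hs', Matrix.mul_apply, hB]
      exact hs t c
    · rw [hs0 j hj, pow_zero]
      exact one_dvd _
  choose N hN using hdvd
  have hdet : (B * M).det = X ^ (∑ j, s' j) * (Matrix.of N).det := by
    have h1 : B * M = Matrix.of fun j c => X ^ s' j * (Matrix.of N) j c := by
      ext1 j c
      rw [Matrix.of_apply, Matrix.of_apply]
      exact hN j c
    rw [h1, Matrix.det_mul_column, Finset.prod_pow_eq_pow_sum]
  rw [Matrix.det_mul] at hdet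
  have hX : ¬ (X : ℤ[X]) ∣ B.det := by
    rw [X_dvd_iff]
    intro h0
    have h1 : (B.map (Polynomial.constantCoeff : ℤ[X] →+* ℤ)).det = 0 := by
      have := (RingHom.map_det (Polynomial.constantCoeff : ℤ[X] →+* ℤ) B).symm
      rw [Polynomial.constantCoeff_apply, h0] at this
      exact this
    obtain ⟨y, hy0, hy⟩ := Matrix.exists_mulVec_eq_zero_iff.2 h1
    apply hy0
    have hy1 : ∀ j, (¬ ∃ t, σ t = j) → y j = 0 := by
      intro j hj
      have h2 := congrFun hy j
      simp only [Matrix.mulVec, dotProduct, Matrix.map_apply, Pi.zero_apply] at h2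
      rw [hB0 j hj] at h2
      rw [Finset.sum_eq_single j] at h2
      · simpa using h2
      · intro i _ hi
        rw [Pi.single_eq_of_ne hi]
        simp
      · intro h3
        exact absurd (mem_univ j) h3
    have hy2 : ∀ t, y (σ t) = 0 := by
      have h3 : (fun t => y (σ t)) = 0 := by
        apply Matrix.eq_zero_of_mulVec_eq_zero hσ
        funext t
        have h2 := congrFun hy (σ t)
        simp only [Matrix.mulVec, dotProduct, Matrix.map_apply, Pi.zero_apply,
          Matrix.of_apply] at h2 ⊢
        rw [hB t] at h2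
        rw [← h2]
        have h4 : ∑ x, Polynomial.constantCoeff (u t x) * y x =
            ∑ x ∈ univ.map ⟨σ, hinj⟩, Polynomial.constantCoeff (u t x) * y x := by
          symm
          apply Finset.sum_subset (Finset.subset_univ _)
          intro j _ hj
          rw [hy1 j, mul_zero]
          rintro ⟨t, rfl⟩
          exact hj (Finset.mem_map.2 ⟨t, mem_univ _, rfl⟩)
        rw [h4, Finset.sum_map]
        rfl
      exact fun t => congrFun h3 t
    funext j
    by_cases hj : ∃ t, σ t = j
    · obtain ⟨t, rfl⟩ := hj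
      exact hy2 t
    · exact hy1 j hj
  rw [← hsum]
  refine Polynomial.prime_X.pow_dvd_of_dvd_mul_left _ hX ?_
  rw [hdet]
  exact dvd_mul_right _ _

/-- the version for an arbitrary finite family of rows -/
theorem local_div' {n : ℕ} {ι : Type} [Fintype ι] (u : ι → Fin n → ℤ[X])
    (h : ∀ c : ι → ℤ, (∀ j, ∑ i, c i * (u i j).coeff 0 = 0) → c = 0)
    (M : Matrix (Fin n) (Fin n) ℤ[X]) (s : ι → ℕ)
    (hs : ∀ i c, X ^ s i ∣ ∑ j, u i j * M j c) : X ^ (∑ i, s i) ∣ M.det := by
  classical
  let φ := (Fintype.equivFin ι).symm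
  have h1 := local_div (fun i => u (φ i)) (by
    intro c hc
    have h2 := h (fun i => c (φ.symm i)) (by
      intro j
      rw [← hc j, ← Equiv.sum_comp φ]
      exact Finset.sum_congr rfl fun i _ => by rw [Equiv.symm_apply_apply])
    funext i
    have := congrFun h2 (φ i)
    rwa [Equiv.symm_apply_apply] at this) M (fun i => s (φ i)) (fun i c => hs (φ i) c)
  rwa [Equiv.sum_comp φ s] at h1

end Pool.Agent.TH585.VF
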