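import Mathlib
import Pool.Agent.H458.Sp.AffDich
import Pool.Agent.H531R2.Deriv
import Pool.Agent.TH585.VF.Loc

/-!
# The local inequality
-/

set_option autoImplicit false

namespace Pool.Agent.TH585.VF

open Finset MvPolynomial Pool.Agent.H458.Sp
open Pool.Agent.H531R2 (Eul wt)

variable {r n : ℕ}

/-- monomials of the same degree with the same value at `l` have the same value at `a` -/
def Comp (D : ℕ) (l a : Fin r → ℕ) : Prop :=
  ∀ α β : Fin r →₀ ℕ, ∑ j, α j = ∑ j, β j → ∑ j, α j ≤ D → exn l α = exn l β → exn a α = exn a β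

theorem wt_eq_exn (a : Fin r → ℕ) (α : Fin r →₀ ℕ) : wt a α = exn a α := by
  unfold wt exn
  exact Finset.sum_congr rfl fun j _ => mul_comm _ _

theorem homog_sum {k : ℕ} {G : MvPolynomial (Fin r) ℤ} (hG : G.IsHomogeneous k) {α : Fin r →₀ ℕ}
    (hα : α ∈ G.support) : ∑ j, α j = k := by
  have h2 := hG (mem_support_iff.1 hα)
  rw [Finsupp.weight_apply, Finsupp.sum_fintype _ _ (by simp)] at h2
  simpa using h2

theorem sub_Eul_coeff (b : ℤ) (m l a : Fin r → ℕ) (D k : ℕ) (hk : k ≤ D)
    (G : MvPolynomial (Fin r) ℤ) (hG : G.IsHomogeneous k) (hc : Comp D l a) (w : ℕ) :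
    ∃ κ : ℤ, (sub b m l (Eul a G)).coeff w = κ * (sub b m l G).coeff w := by
  classical
  have hsub : (Eul a G).support ⊆ G.support := by
    intro α hα
    rw [mem_support_iff, Pool.Agent.H531R2.coeff_Eul] at hα
    rw [mem_support_iff]
    exact right_ne_zero_of_mul hα
  have h1 : (sub b m l (Eul a G)).coeff w = ∑ α ∈ G.support.filter (fun α => w = exn l α),
      b ^ (exn m α) * coeff α (Eul a G) := by
    rw [sub_coeff]
    apply Finset.sum_subset (Finset.filter_subset_filter _ hsub)
    intro α hα hα'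
    rw [Finset.mem_filter] at hα hα'
    have : α ∉ (Eul a G).support := fun h => hα' ⟨h, hα.2⟩
    rw [notMem_support_iff.1 this, mul_zero]
  rcases (G.support.filter (fun α => w = exn l α)).eq_empty_or_nonempty with h0 | ⟨α0, hα0⟩
  · refine ⟨0, ?_⟩
    rw [h1, h0, Finset.sum_empty, zero_mul]
  · refine ⟨(exn a α0 : ℤ), ?_⟩
    rw [h1, sub_coeff, Finset.mul_sum]
    refine Finset.sum_congr rfl fun α hα => ?_
    rw [Finset.mem_filter] at hα hα0
    have h2 : exn a α = exn a α0 := by
      apply hc α α0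
      · rw [homog_sum hG hα.1, homog_sum hG hα0.1]
      · rw [homog_sum hG hα.1]
        exact hk
      · rw [← hα.2, ← hα0.2]
    rw [Pool.Agent.H531R2.coeff_Eul, wt_eq_exn, h2]
    ring

theorem dvd_sub_Eul (b : ℤ) (m l a : Fin r → ℕ) (D k : ℕ) (hk : k ≤ D)
    (G : MvPolynomial (Fin r) ℤ) (hG : G.IsHomogeneous k) (hc : Comp D l a) (s : ℕ)
    (h : (Polynomial.X : Polynomial ℤ) ^ s ∣ sub b m l G) :
    (Polynomial.X : Polynomial ℤ) ^ s ∣ sub b m l (Eul a G) := by
  rw [Polynomial.X_pow_dvd_iff] at h ⊢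
  intro w hw
  obtain ⟨κ, hκ⟩ := sub_Eul_coeff b m l a D k hk G hG hc w
  rw [hκ, h w hw, mul_zero]

/-- the chain rule -/
theorem deriv_aeval_int {B : Type} [CommRing B] (D : Derivation ℤ B B)
    (T : Fin n → B) (P : MvPolynomial (Fin n) ℤ) :
    D (aeval T P) = ∑ a, aeval T (pderiv a P) * D (T a) := by
  induction P using MvPolynomial.induction_on with
  | C a => simp
  | add p q hp hq =>
    rw [map_add, map_add, hp, hq, ← Finset.sum_add_distrib]
    refine Finset.sum_congr rfl fun a _ => ?_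
    rw [map_add, map_add, add_mul]
  | mul_X p j hp =>
    rw [map_mul, Derivation.leibniz, hp, aeval_X, smul_eq_mul, smul_eq_mul]
    have h1 : ∀ a, aeval T (pderiv a (p * X j)) * D (T a)
        = T j * (aeval T (pderiv a p) * D (T a)) + aeval T p * (if a = j then D (T a) else 0) := by
      intro a
      rw [pderiv_mul, map_add, map_mul, map_mul, aeval_X]
      by_cases h : a = j
      · subst h
        rw [pderiv_X_self, map_one, if_pos rfl]
        ring
      · rw [pderiv_X_of_ne (Ne.symm h), map_zero, if_neg h]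
        ring
    rw [Finset.sum_congr rfl fun a _ => h1 a, Finset.sum_add_distrib, ← Finset.mul_sum,
      ← Finset.mul_sum, Finset.sum_ite_eq' Finset.univ j, if_pos (Finset.mem_univ _)]
    ring

theorem Eul_li (a : Fin r → ℕ) (c : Fin r → ℤ) :
    Eul a (li c) = li (fun j => (a j : ℤ) * c j) := by
  unfold li
  rw [map_sum]
  refine Finset.sum_congr rfl fun j _ => ?_
  rw [← smul_eq_C_mul, Derivation.map_smul, Pool.Agent.H531R2.Eul_X, smul_eq_C_mul, C_mul]
  ring

/-- the determinant of the derivatives of the linear forms -/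
noncomputable def jac (c : Fin n → Fin r → ℤ) (a : Fin n → Fin r → ℕ) : MvPolynomial (Fin r) ℤ :=
  (Matrix.of fun j k => Eul (a k) (li (c j))).det

theorem coeff_zero_aeval (g : Fin n → Polynomial ℤ) (P : MvPolynomial (Fin n) ℤ) :
    (aeval g P).coeff 0 = eval (fun i => (g i).coeff 0) P := by
  have h1 : Polynomial.constantCoeff (aeval g P) =
      eval₂ (Polynomial.constantCoeff.comp (algebraMap ℤ (Polynomial ℤ)))
        (Polynomial.constantCoeff ∘ g) P := by
    rw [aeval_def]
    exact eval₂_comp_left _ _ _ _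
  rw [Polynomial.constantCoeff_apply] at h1
  rw [h1, eval]
  have h2 : Polynomial.constantCoeff.comp (algebraMap ℤ (Polynomial ℤ)) = RingHom.id ℤ :=
    Subsingleton.elim _ _
  rw [h2]
  rfl

theorem aeval_smul_homog' {k : ℕ} (F : MvPolynomial (Fin n) ℤ) (hF : F.IsHomogeneous k)
    (g : Polynomial ℤ) (p : Fin n → Polynomial ℤ) :
    aeval (fun i => g * p i) F = g ^ k * aeval p F := by
  rw [aeval_def, aeval_def, eval₂_eq', eval₂_eq', Finset.mul_sum]
  refine Finset.sum_congr rfl fun s hs' => ?_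
  have h2 := homog_sum hF hs'
  simp_rw [mul_pow]
  rw [Finset.prod_mul_distrib, Finset.prod_pow_eq_pow_sum, h2]
  ring

theorem bind_homog (c : Fin n → Fin r → ℤ) {k : ℕ} (F : MvPolynomial (Fin n) ℤ)
    (hF : F.IsHomogeneous k) : (bind₁ (fun i => li (c i)) F).IsHomogeneous k := by
  rw [bind_eq]
  refine IsHomogeneous.sum _ _ _ fun s hs => ?_
  have h3 : (C (coeff s F) * ∏ i, li (c i) ^ s i).IsHomogeneous (0 + ∑ i, s i * 1) := by
    refine (isHomogeneous_C _ _).mul ?_
    refine IsHomogeneous.prod _ _ _ fun i _ => ?_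
    rw [mul_one]
    simpa using (li_homog (c i)).pow (s i)
  have h2 := homog_sum hF hs
  simpa [h2] using h3

theorem sum_sub {q : ℕ} {R : Type} [AddCommMonoid R] (p : Fin q → Prop) [DecidablePred p]
    (f : Fin q → R) (hf : ∀ i, ¬ p i → f i = 0) : ∑ i : {i // p i}, f i.1 = ∑ i, f i := by
  rw [← Finset.sum_subtype (univ.filter p) (by simp) f]
  apply Finset.sum_subset (Finset.subset_univ _)
  intro i _ hi
  apply hf
  intro h
  exact hi (Finset.mem_filter.2 ⟨mem_univ _, h⟩)

/-- **The local inequality** at the point `0` of the line. -/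
theorem local_ineq (b : ℤ) (m l : Fin r → ℕ) (c : Fin n → Fin r → ℤ) (a : Fin n → Fin r → ℕ)
    (D : ℕ) (hD : 1 ≤ D) (hcomp : ∀ k, Comp D l (a k)) {q : ℕ}
    (F : Fin q → MvPolynomial (Fin n) ℤ) (d : Fin q → ℕ)
    (hF : ∀ i, (F i).IsHomogeneous (d i)) (hdD : ∀ i, d i ≤ D)
    (hnc : ∀ z : Fin n → ℤ, z ≠ 0 → ∀ κ : Fin q → ℤ, (∀ i, κ i ≠ 0 → eval z (F i) = 0) →
      (∀ j, ∑ i, κ i * eval z (pderiv j (F i)) = 0) → κ = 0)
    (ω : ℕ) (hω : ∀ i, (Polynomial.X : Polynomial ℤ) ^ ω ∣ sub b m l (li (c i)))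
    (hω' : ∃ i, ¬ (Polynomial.X : Polynomial ℤ) ^ (ω + 1) ∣ sub b m l (li (c i)))
    (t : Fin q → ℕ)
    (ht : ∀ i, (Polynomial.X : Polynomial ℤ) ^ (d i * ω + t i) ∣
      sub b m l (bind₁ (fun i => li (c i)) (F i))) :
    (Polynomial.X : Polynomial ℤ) ^ (n * ω + ∑ i, t i) ∣ sub b m l (jac c a) := by
  classical
  choose g hg using hω
  set z : Fin n → ℤ := fun i => (g i).coeff 0 with hz
  have hz0 : z ≠ 0 := by
    obtain ⟨i0, hi0⟩ := hω'
    intro h0
    apply hi0
    have h1 : (g i0).coeff 0 = 0 := congrFun h0 i0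
    rw [hg i0, pow_succ]
    exact mul_dvd_mul_left _ (Polynomial.X_dvd_iff.2 h1)
  have hM : ∀ j k, (Polynomial.X : Polynomial ℤ) ^ ω ∣ sub b m l (Eul (a k) (li (c j))) := by
    intro j k
    exact dvd_sub_Eul b m l (a k) D 1 hD _ (li_homog _) (hcomp k) ω ⟨g j, hg j⟩
  choose M' hM' using hM
  have hγ : (fun i => (Polynomial.X : Polynomial ℤ) ^ ω * g i) =
      fun i => sub b m l (li (c i)) := funext fun i => (hg i).symm
  have haev : ∀ P : MvPolynomial (Fin n) ℤ, sub b m l (bind₁ (fun i => li (c i)) P) =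
      aeval (fun i => (Polynomial.X : Polynomial ℤ) ^ ω * g i) P := by
    intro P
    rw [hγ]
    unfold sub
    rw [aeval_bind₁]
  have hXne : ∀ k : ℕ, (Polynomial.X : Polynomial ℤ) ^ k ≠ 0 :=
    fun k => pow_ne_zero _ Polynomial.X_ne_zero
  -- vanishing at `z`
  have hvan : ∀ i, 0 < t i → eval z (F i) = 0 := by
    intro i hi
    have h1 := ht i
    rw [haev, aeval_smul_homog' (F i) (hF i), ← pow_mul, mul_comm ω, pow_add] at h1
    have h2 := (mul_dvd_mul_iff_left (hXne _)).1 h1
    have h3 : (Polynomial.X : Polynomial ℤ) ∣ aeval g (F i) :=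
      (dvd_pow_self _ hi.ne').trans h2
    rw [Polynomial.X_dvd_iff, coeff_zero_aeval] at h3
    exact h3
  -- the rows
  have hrow : ∀ i k, (Polynomial.X : Polynomial ℤ) ^ t i ∣
      ∑ j, aeval g (pderiv j (F i)) * M' j k := by
    intro i k
    rcases Nat.eq_zero_or_pos (d i) with h0 | h0
    · have h1 : ∀ j, pderiv j (F i) = 0 := by
        intro j
        have h2 := hF i
        rw [h0, ← totalDegree_zero_iff_isHomogeneous, totalDegree_eq_zero_iff_eq_C] at h2
        rw [h2, pderiv_C]
      have h2 : ∑ j, aeval g (pderiv j (F i)) * M' j k = 0 := by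
        apply Finset.sum_eq_zero
        intro j _
        rw [h1, map_zero, zero_mul]
      rw [h2]
      exact dvd_zero _
    · have h1 := dvd_sub_Eul b m l (a k) D (d i) (hdD i) _ (bind_homog c (F i) (hF i)) (hcomp k) _
        (ht i)
      have h2 : Eul (a k) (bind₁ (fun i => li (c i)) (F i)) =
          ∑ j, bind₁ (fun i => li (c i)) (pderiv j (F i)) * Eul (a k) (li (c j)) :=
        deriv_aeval_int (Eul (a k)) (fun i => li (c i)) (F i)
      rw [h2, map_sum] at h1
      have h3 : ∀ j, sub b m l (bind₁ (fun i => li (c i)) (pderiv j (F i)) *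
          Eul (a k) (li (c j))) = (Polynomial.X : Polynomial ℤ) ^ (d i * ω) *
            (aeval g (pderiv j (F i)) * M' j k) := by
        intro j
        rw [map_mul, haev, aeval_smul_homog' (pderiv j (F i)) ((hF i).pderiv), hM' j k, ← pow_mul]
        have h4 : d i * ω = ω * (d i - 1) + ω := by
          obtain ⟨e, he⟩ : ∃ e, d i = e + 1 := ⟨d i - 1, by omega⟩
          rw [he, Nat.add_sub_cancel]
          ring
        rw [h4, pow_add]
        ring
      rw [Finset.sum_congr rfl fun j _ => h3 j, ← Finset.mul_sum, pow_add] at h1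
      exact (mul_dvd_mul_iff_left (hXne _)).1 h1
  let ι := {i : Fin q // 0 < t i}
  let u : ι → Fin n → Polynomial ℤ := fun i j => aeval g (pderiv j (F i.1))
  have hu : ∀ i j, (u i j).coeff 0 = eval z (pderiv j (F i.1)) := fun i j => coeff_zero_aeval g _
  have hdiv := local_div' u (by
    intro κ hκ
    have h1 := hnc z hz0 (fun i => if hi : 0 < t i then κ ⟨i, hi⟩ else 0) (by
      intro i hi
      by_cases h2 : 0 < t i
      · exact hvan i h2
      · simp only [dif_neg h2] at hi
        exact absurd rfl hi) (by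
      intro j
      refine Eq.trans ?_ (hκ j)
      rw [← sum_sub (fun i => 0 < t i)]
      · refine Finset.sum_congr rfl fun i _ => ?_
        rw [hu, dif_pos i.2]
      · intro i hi
        rw [dif_neg hi, zero_mul])
    funext i
    have := congrFun h1 i.1
    simp only [dif_pos i.2] at this
    exact this) (Matrix.of M') (fun i => t i.1) (by
    intro i k
    exact hrow i.1 k)
  have hsum : ∑ i : ι, t i.1 = ∑ i, t i := by
    apply sum_sub (fun i => 0 < t i)
    intro i hi
    omega
  rw [hsum] at hdiv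
  have hdet : sub b m l (jac c a) = (Polynomial.X : Polynomial ℤ) ^ (n * ω) *
      (Matrix.of M').det := by
    have h1 : sub b m l (jac c a) = ((Polynomial.X : Polynomial ℤ) ^ ω • Matrix.of M').det := by
      unfold jac
      rw [AlgHom.map_det]
      congr 1
      ext1 j k
      rw [AlgHom.mapMatrix_apply, Matrix.map_apply, Matrix.of_apply, hM' j k, Matrix.smul_apply,
        Matrix.of_apply, smul_eq_mul]
    rw [h1, Matrix.det_smul, Fintype.card_fin, ← pow_mul, mul_comm ω]
  rw [hdet, pow_add]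
  exact mul_dvd_mul_left _ hdiv

end Pool.Agent.TH585.VF
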