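import Mathlib
import Pool.Agent.TH585.VF.Der

/-!
# The sum of the local inequalities at `0` and at infinity
-/

set_option autoImplicit false

namespace Pool.Agent.TH585.VF

open Finset MvPolynomial Pool.Agent.H458.Sp
open Pool.Agent.H531R2 (Eul wt)

variable {r n : ℕ}

theorem exn_rev (l : Fin r → ℕ) (Λ : ℕ) (hΛ : ∀ j, l j ≤ Λ) (α : Fin r →₀ ℕ) :
    exn (fun j => Λ - l j) α + exn l α = (∑ j, α j) * Λ := by
  unfold exn
  rw [← Finset.sum_add_distrib, Finset.sum_mul]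
  refine Finset.sum_congr rfl fun j _ => ?_
  rw [← Nat.mul_add, Nat.sub_add_cancel (hΛ j)]

theorem Comp.rev {D : ℕ} {l a : Fin r → ℕ} (h : Comp D l a) (Λ : ℕ) (hΛ : ∀ j, l j ≤ Λ) :
    Comp D (fun j => Λ - l j) a := by
  intro α β h1 h2 h3
  have h4 := exn_rev l Λ hΛ α
  have h5 := exn_rev l Λ hΛ β
  refine h α β h1 h2 ?_
  rw [h1] at h4
  omega

theorem sub_rev_coeff (b : ℤ) (m l : Fin r → ℕ) (Λ : ℕ) (hΛ : ∀ j, l j ≤ Λ) (k : ℕ)
    (G : MvPolynomial (Fin r) ℤ) (hG : G.IsHomogeneous k) (w : ℕ) (hw : w ≤ k * Λ) :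
    (sub b m (fun j => Λ - l j) G).coeff (k * Λ - w) = (sub b m l G).coeff w := by
  classical
  rw [sub_coeff, sub_coeff]
  refine Finset.sum_congr ?_ fun α _ => rfl
  ext α
  rw [Finset.mem_filter, Finset.mem_filter]
  refine and_congr_right fun hα => ?_
  have h1 := exn_rev l Λ hΛ α
  rw [homog_sum hG hα] at h1
  omega

theorem sub_natDegree_le (b : ℤ) (m l : Fin r → ℕ) (Λ : ℕ) (hΛ : ∀ j, l j ≤ Λ) (k : ℕ)
    (G : MvPolynomial (Fin r) ℤ) (hG : G.IsHomogeneous k) :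
    (sub b m l G).natDegree ≤ k * Λ := by
  classical
  rw [Polynomial.natDegree_le_iff_coeff_eq_zero]
  intro w hw
  rw [sub_coeff]
  apply Finset.sum_eq_zero
  intro α hα
  rw [Finset.mem_filter] at hα
  exfalso
  have h1 := exn_rev l Λ hΛ α
  rw [homog_sum hG hα.1] at h1
  omega

theorem rev_dvd (b : ℤ) (m l : Fin r → ℕ) (Λ : ℕ) (hΛ : ∀ j, l j ≤ Λ) (k : ℕ)
    (G : MvPolynomial (Fin r) ℤ) (hG : G.IsHomogeneous k) (f : ℕ)
    (hf : (sub b m l G).natDegree ≤ f) :
    (Polynomial.X : Polynomial ℤ) ^ (k * Λ - f) ∣ sub b m (fun j => Λ - l j) G := by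
  rw [Polynomial.X_pow_dvd_iff]
  intro w hw
  have h1 := sub_rev_coeff b m l Λ hΛ k G hG (k * Λ - w) (Nat.sub_le _ _)
  have h2 : k * Λ - (k * Λ - w) = w := by omega
  rw [h2] at h1
  rw [h1]
  apply Polynomial.coeff_eq_zero_of_natDegree_lt
  omega

theorem rev_le (b : ℤ) (m l : Fin r → ℕ) (Λ : ℕ) (hΛ : ∀ j, l j ≤ Λ) (k : ℕ)
    (G : MvPolynomial (Fin r) ℤ) (hG : G.IsHomogeneous k) (h0 : sub b m l G ≠ 0) (s : ℕ)
    (hs : (Polynomial.X : Polynomial ℤ) ^ s ∣ sub b m (fun j => Λ - l j) G) :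
    (sub b m l G).natDegree + s ≤ k * Λ := by
  have h1 := sub_natDegree_le b m l Λ hΛ k G hG
  have h2 := sub_rev_coeff b m l Λ hΛ k G hG _ h1
  rw [Polynomial.X_pow_dvd_iff] at hs
  by_contra hcon
  push Not at hcon
  rw [hs _ (by omega)] at h2
  exact h0 (Polynomial.leadingCoeff_eq_zero.1 h2.symm)

theorem jac_homog (c : Fin n → Fin r → ℤ) (a : Fin n → Fin r → ℕ) :
    (jac c a).IsHomogeneous n := by
  classical
  unfold jac
  rw [Matrix.det_apply']
  refine IsHomogeneous.sum _ _ _ fun σ _ => ?_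
  have h1 : (∏ i, (Matrix.of fun j k => Eul (a k) (li (c j))) (σ i) i).IsHomogeneous
      (∑ _i : Fin n, 1) := by
    refine IsHomogeneous.prod _ _ _ fun i _ => ?_
    rw [Matrix.of_apply, Eul_li]
    exact li_homog _
  have h2 : (∑ _i : Fin n, 1) = n := by simp
  rw [h2] at h1
  have h3 := (isHomogeneous_C (Fin r) ((Equiv.Perm.sign σ : ℤˣ) : ℤ)).mul h1
  rw [zero_add] at h3
  convert h3 using 2
  exact (map_intCast (C : ℤ →+* MvPolynomial (Fin r) ℤ) _).symm

/-- **The sum of the local inequalities.** -/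
theorem comb_ineq (b : ℤ) (m l : Fin r → ℕ) (c : Fin n → Fin r → ℤ) (a : Fin n → Fin r → ℕ)
    (D : ℕ) (hD : 1 ≤ D) (hcomp : ∀ k, Comp D l (a k)) {q : ℕ}
    (F : Fin q → MvPolynomial (Fin n) ℤ) (d : Fin q → ℕ)
    (hF : ∀ i, (F i).IsHomogeneous (d i)) (hdD : ∀ i, d i ≤ D)
    (hnc : ∀ z : Fin n → ℤ, z ≠ 0 → ∀ κ : Fin q → ℤ, (∀ i, κ i ≠ 0 → eval z (F i) = 0) →
      (∀ j, ∑ i, κ i * eval z (pderiv j (F i)) = 0) → κ = 0)
    (hprim : ∃ i, ¬ (Polynomial.X : Polynomial ℤ) ∣ sub b m l (li (c i)))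
    (δ : ℕ) (hδ : ∀ i, (sub b m l (li (c i))).natDegree ≤ δ)
    (hδ' : ∃ i, sub b m l (li (c i)) ≠ 0 ∧ (sub b m l (li (c i))).natDegree = δ)
    (hP : ∀ i, sub b m l (bind₁ (fun i => li (c i)) (F i)) ≠ 0)
    (hjac : sub b m l (jac c a) ≠ 0) :
    ∑ i, (d i * δ + (sub b m l (bind₁ (fun i => li (c i)) (F i))).natTrailingDegree) ≤
      n * δ + ∑ i, (sub b m l (bind₁ (fun i => li (c i)) (F i))).natDegree := by
  classical
  set P : Fin q → Polynomial ℤ := fun i => sub b m l (bind₁ (fun i => li (c i)) (F i)) with hPdef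
  set J := sub b m l (jac c a) with hJ
  -- the point `0`
  have h0 : ∑ i, (P i).natTrailingDegree ≤ J.natTrailingDegree := by
    have h1 := local_ineq b m l c a D hD hcomp F d hF hdD hnc 0
      (fun i => by rw [pow_zero]; exact one_dvd _)
      (by simpa using hprim) (fun i => (P i).natTrailingDegree) (fun i => by
        rw [mul_zero, zero_add, Polynomial.X_pow_dvd_iff]
        intro w hw
        exact Polynomial.coeff_eq_zero_of_lt_natTrailingDegree hw)
    rw [mul_zero, zero_add, Polynomial.X_pow_dvd_iff] at h1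
    by_contra hcon
    push Not at hcon
    have h2 := h1 _ hcon
    have h3 : J.coeff J.natTrailingDegree ≠ 0 := by
      have := Polynomial.trailingCoeff_nonzero_iff_nonzero.2 hjac
      exact this
    exact h3 h2
  -- the point at infinity
  obtain ⟨Λ, hΛ⟩ : ∃ Λ, ∀ j, l j ≤ Λ :=
    ⟨∑ j, l j, fun j => Finset.single_le_sum (f := l) (fun _ _ => Nat.zero_le _) (mem_univ j)⟩
  have hδΛ : δ ≤ Λ := by
    obtain ⟨i, _, hi⟩ := hδ'
    have := sub_natDegree_le b m l Λ hΛ 1 _ (li_homog (c i))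
    omega
  have hω : ∀ i, (Polynomial.X : Polynomial ℤ) ^ (Λ - δ) ∣
      sub b m (fun j => Λ - l j) (li (c i)) := by
    intro i
    have := rev_dvd b m l Λ hΛ 1 _ (li_homog (c i)) δ (hδ i)
    rwa [one_mul] at this
  have hdeg : ∀ i, (P i).natDegree ≤ d i * δ := by
    intro i
    choose g hg using hω
    have h1 : sub b m (fun j => Λ - l j) (bind₁ (fun i => li (c i)) (F i)) =
        (Polynomial.X : Polynomial ℤ) ^ ((Λ - δ) * d i) * aeval g (F i) := by
      have h2 : sub b m (fun j => Λ - l j) (bind₁ (fun i => li (c i)) (F i)) =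
          aeval (fun i => (Polynomial.X : Polynomial ℤ) ^ (Λ - δ) * g i) (F i) := by
        have h3 : (fun i => (Polynomial.X : Polynomial ℤ) ^ (Λ - δ) * g i) =
            fun i => sub b m (fun j => Λ - l j) (li (c i)) := funext fun i => (hg i).symm
        rw [h3]
        unfold sub
        rw [aeval_bind₁]
      rw [h2, aeval_smul_homog' (F i) (hF i), ← pow_mul]
    have h2 := rev_le b m l Λ hΛ (d i) _ (bind_homog c (F i) (hF i)) (hP i) _ ⟨_, h1⟩
    have h3 : (Λ - δ) * d i + d i * δ = d i * Λ := by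
      rw [mul_comm (Λ - δ), ← Nat.mul_add, Nat.sub_add_cancel hδΛ]
    have h4 : (P i).natDegree + (Λ - δ) * d i ≤ d i * Λ := h2
    omega
  have hinf := local_ineq b m (fun j => Λ - l j) c a D hD (fun k => (hcomp k).rev Λ hΛ) F d hF hdD
    hnc (Λ - δ) hω (by
      obtain ⟨i, hi0, hi⟩ := hδ'
      refine ⟨i, fun hcon => ?_⟩
      have h1 := rev_le b m l Λ hΛ 1 _ (li_homog (c i)) hi0 _ hcon
      rw [hi] at h1
      omega) (fun i => d i * δ - (P i).natDegree) (fun i => by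
      have h1 := rev_dvd b m l Λ hΛ (d i) _ (bind_homog c (F i) (hF i)) (P i).natDegree le_rfl
      have h2 := hdeg i
      have h3 : d i * (Λ - δ) + d i * δ = d i * Λ := by
        rw [← Nat.mul_add, Nat.sub_add_cancel hδΛ]
      have h4 : d i * (Λ - δ) + (d i * δ - (P i).natDegree) = d i * Λ - (P i).natDegree := by
        omega
      rw [h4]
      exact h1)
  have h1 := rev_le b m l Λ hΛ n _ (jac_homog c a) hjac _ hinf
  have h2 : n * (Λ - δ) + n * δ = n * Λ := by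
    rw [← Nat.mul_add, Nat.sub_add_cancel hδΛ]
  have h3 : ∑ i, (d i * δ - (P i).natDegree) + ∑ i, (P i).natDegree = ∑ i, d i * δ := by
    rw [← Finset.sum_add_distrib]
    exact Finset.sum_congr rfl fun i _ => Nat.sub_add_cancel (hdeg i)
  have h4 : J.natTrailingDegree ≤ J.natDegree := Polynomial.natTrailingDegree_le_natDegree _
  rw [Finset.sum_add_distrib]
  have h5 : J.natDegree + (n * (Λ - δ) + ∑ i, (d i * δ - (P i).natDegree)) ≤ n * Λ := h1
  change ∑ i, d i * δ + ∑ i, (P i).natTrailingDegree ≤ n * δ + ∑ i, (P i).natDegree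
  omega

end Pool.Agent.TH585.VF
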