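import Mathlib
import Pool.Agent.H626R2.PJac
import Pool.Agent.TH585.VF.Rev

/-!
# The dichotomy: nonvanishing Jacobian or algebraic relation
-/

set_option autoImplicit false

namespace Pool.Agent.TH585.VF

open Finset MvPolynomial Pool.Agent.H458.Sp
open Pool.Agent.H531R2 (Eul wt)

variable {r n : ℕ}

/-- the pairs of exponent vectors of the same degree with the same value at `l` -/
def Rel (D : ℕ) (l : Fin r → ℕ) : Set ((Fin r → Fin (D + 1)) × (Fin r → Fin (D + 1))) :=
  {p | ∑ j, (p.1 j : ℕ) = ∑ j, (p.2 j : ℕ) ∧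
    ∑ j, (p.1 j : ℕ) * l j = ∑ j, (p.2 j : ℕ) * l j}

theorem comp_of_rel {D : ℕ} {l a : Fin r → ℕ} (h : Rel D l ⊆ Rel D a) : Comp D l a := by
  intro α β h1 h2 h3
  have hα : ∀ j, α j < D + 1 := fun j => by
    have := Finset.single_le_sum (f := fun j => α j) (fun _ _ => Nat.zero_le _) (mem_univ j)
    omega
  have hβ : ∀ j, β j < D + 1 := fun j => by
    have := Finset.single_le_sum (f := fun j => β j) (fun _ _ => Nat.zero_le _) (mem_univ j)
    omega
  have h4 := h (a := (fun j => ⟨α j, hα j⟩, fun j => ⟨β j, hβ j⟩)) ⟨h1, h3⟩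
  exact h4.2

section Psi

variable {σ : Type} [Fintype σ]

/-- the exponent of the image of a monomial -/
noncomputable def EE (A : σ → Fin r → ℕ) (α : Fin r →₀ ℕ) : σ →₀ ℕ :=
  Finsupp.equivFunOnFinite.symm (fun y => exn (A y) α)

theorem EE_apply (A : σ → Fin r → ℕ) (α : Fin r →₀ ℕ) (y : σ) : EE A α y = exn (A y) α := rfl

/-- the substitution of monomials -/
noncomputable def psi (b : ℤ) (m : Fin r → ℕ) (A : σ → Fin r → ℕ) :
    MvPolynomial (Fin r) ℤ →ₐ[ℤ] MvPolynomial σ ℚ :=
  aeval (fun j => C ((b : ℚ) ^ (m j)) *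
    monomial (Finsupp.equivFunOnFinite.symm (fun y => A y j)) 1)

theorem psi_monomial (b : ℤ) (m : Fin r → ℕ) (A : σ → Fin r → ℕ) (α : Fin r →₀ ℕ) (z : ℤ) :
    psi b m A (monomial α z) = monomial (EE A α) ((b : ℚ) ^ (exn m α) * (z : ℚ)) := by
  unfold psi
  rw [aeval_monomial, Finsupp.prod_fintype _ _ (by simp)]
  simp_rw [mul_pow]
  rw [Finset.prod_mul_distrib]
  simp_rw [monomial_pow, one_pow, ← map_pow]
  rw [← map_prod, ← monomial_sum_one]
  have h1 : ∑ j, α j • (Finsupp.equivFunOnFinite.symm (fun y => A y j) : σ →₀ ℕ) = EE A α := by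
    ext y
    rw [EE_apply, Finsupp.finsetSum_apply]
    rfl
  have h2 : ∏ j, ((b : ℚ) ^ (m j)) ^ (α j) = (b : ℚ) ^ (exn m α) := by
    unfold exn
    rw [← Finset.prod_pow_eq_pow_sum]
    refine Finset.prod_congr rfl fun j _ => ?_
    rw [← pow_mul, mul_comm]
  rw [h1, h2]
  have h3 : (algebraMap ℤ (MvPolynomial σ ℚ)) z = C (z : ℚ) := by
    simp
  rw [h3, C_mul_monomial, C_mul_monomial]
  congr 1
  ring

theorem psi_eq (b : ℤ) (m : Fin r → ℕ) (A : σ → Fin r → ℕ) (G : MvPolynomial (Fin r) ℤ) :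
    psi b m A G = ∑ α ∈ G.support, monomial (EE A α) ((b : ℚ) ^ (exn m α) * ((coeff α G : ℤ) : ℚ)) := by
  conv_lhs => rw [G.as_sum, map_sum]
  exact Finset.sum_congr rfl fun α _ => psi_monomial b m A α _

/-- a form that vanishes at the curve vanishes after substitution of monomials -/
theorem psi_eq_zero (b : ℤ) (m l : Fin r → ℕ) (A : σ → Fin r → ℕ) (D k : ℕ) (hk : k ≤ D)
    (hA : ∀ y, Comp D l (A y)) (G : MvPolynomial (Fin r) ℤ) (hG : G.IsHomogeneous k)
    (h0 : sub b m l G = 0) : psi b m A G = 0 := by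
  classical
  rw [psi_eq, ← Finset.sum_fiberwise_of_maps_to (s := G.support) (t := G.support.image (exn l))
    (g := exn l) (fun α hα => Finset.mem_image_of_mem _ hα)]
  apply Finset.sum_eq_zero
  intro w _
  have h1 := sub_coeff b m l G w
  rw [h0, Polynomial.coeff_zero] at h1
  rcases (G.support.filter (fun α => exn l α = w)).eq_empty_or_nonempty with h2 | ⟨α0, hα0⟩
  · rw [h2, Finset.sum_empty]
  have h3 : ∀ α ∈ G.support.filter (fun α => exn l α = w),
      monomial (EE A α) ((b : ℚ) ^ (exn m α) * ((coeff α G : ℤ) : ℚ)) =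
        monomial (EE A α0) ((b : ℚ) ^ (exn m α) * ((coeff α G : ℤ) : ℚ)) := by
    intro α hα
    rw [Finset.mem_filter] at hα hα0
    congr 1
    have : EE A α = EE A α0 := by
      ext y
      rw [EE_apply, EE_apply]
      apply hA y
      · rw [homog_sum hG hα.1, homog_sum hG hα0.1]
      · rw [homog_sum hG hα.1]
        exact hk
      · rw [hα.2, hα0.2]
    rw [this]
  rw [Finset.sum_congr rfl h3, ← map_sum]
  have h4 : ∑ α ∈ G.support.filter (fun α => exn l α = w),
      ((b : ℚ) ^ (exn m α) * ((coeff α G : ℤ) : ℚ)) = 0 := by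
    have h5 : G.support.filter (fun α => w = exn l α) =
        G.support.filter (fun α => exn l α = w) := by
      ext α
      rw [Finset.mem_filter, Finset.mem_filter]
      exact and_congr_right fun _ => eq_comm
    rw [h5] at h1
    have h6 : ((0 : ℤ) : ℚ) = ((∑ α ∈ G.support.filter (fun α => exn l α = w),
      b ^ (exn m α) * coeff α G : ℤ) : ℚ) := by rw [← h1]
    push_cast at h6
    exact h6.symm
  rw [h4, map_zero]

theorem psi_Eul (b : ℤ) (m : Fin r → ℕ) (A : σ → Fin r → ℕ) (y : σ)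
    (G : MvPolynomial (Fin r) ℤ) :
    psi b m A (Eul (A y) G) = X y * pderiv y (psi b m A G) := by
  induction G using MvPolynomial.induction_on' with
  | monomial α z =>
    rw [Pool.Agent.H531R2.Eul_monomial, psi_monomial, psi_monomial, X_mul_pderiv_monomial,
      EE_apply, wt_eq_exn, smul_monomial]
    congr 1
    rw [nsmul_eq_mul]
    push_cast
    ring
  | add p q hp hq => rw [map_add, map_add, map_add, map_add, hp, hq, mul_add]

theorem psi_jac (b : ℤ) (m : Fin r → ℕ) (A : σ → Fin r → ℕ) (c : Fin n → Fin r → ℤ)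
    (s : Fin n → σ) :
    psi b m A (jac c (fun k => A (s k))) =
      (∏ k, X (s k)) * (Matrix.of fun i k => pderiv (s k) (psi b m A (li (c i)))).det := by
  unfold jac
  rw [AlgHom.map_det, ← Matrix.det_mul_row]
  congr 1
  ext1 i k
  rw [AlgHom.mapMatrix_apply, Matrix.map_apply, Matrix.of_apply, Matrix.of_apply, psi_Eul,
    Matrix.of_apply]

end Psi

theorem aeval_smul_homog_real {k : ℕ} (F : MvPolynomial (Fin n) ℚ) (hF : F.IsHomogeneous k)
    (g : ℝ) (p : Fin n → ℝ) :
    aeval (fun i => g * p i) F = g ^ k * aeval p F := by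
  rw [aeval_def, aeval_def, eval₂_eq', eval₂_eq', Finset.mul_sum]
  refine Finset.sum_congr rfl fun s hs' => ?_
  have h2 : ∑ j, s j = k := by
    have h2 := hF (mem_support_iff.1 hs')
    rw [Finsupp.weight_apply, Finsupp.sum_fintype _ _ (by simp)] at h2
    simpa using h2
  simp_rw [mul_pow]
  rw [Finset.prod_mul_distrib, Finset.prod_pow_eq_pow_sum, h2]
  ring

/-- if a polynomial vanishes at many multiples of a point, its homogeneous parts vanish there -/
theorem homog_comp (Φ : MvPolynomial (Fin n) ℚ) (b : ℕ) (hb : 2 ≤ b) (x : Fin n → ℝ)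
    (h : ∀ τ : ℕ, aeval (fun i => (b : ℝ) ^ τ * x i) Φ = 0) (k : ℕ) :
    aeval x (homogeneousComponent k Φ) = 0 := by
  classical
  have hb1 : (1 : ℝ) < b := by
    have : (2 : ℝ) ≤ b := by exact_mod_cast hb
    linarith
  set p : Polynomial ℝ := ∑ k ∈ Finset.range (Φ.totalDegree + 1),
    Polynomial.C (aeval x (homogeneousComponent k Φ)) * Polynomial.X ^ k with hp
  have hroot : ∀ τ : ℕ, p.IsRoot ((b : ℝ) ^ τ) := by
    intro τ
    rw [Polynomial.IsRoot.def, hp, Polynomial.eval_finsetSum]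
    have h1 := h τ
    rw [← sum_homogeneousComponent Φ, map_sum] at h1
    rw [← h1]
    refine Finset.sum_congr rfl fun k _ => ?_
    rw [aeval_smul_homog_real _ (homogeneousComponent_isHomogeneous k Φ), Polynomial.eval_mul,
      Polynomial.eval_C, Polynomial.eval_pow, Polynomial.eval_X, mul_comm]
  have hp0 : p = 0 := by
    apply Polynomial.eq_zero_of_infinite_isRoot
    have h1 : Set.range (fun τ : ℕ => (b : ℝ) ^ τ) ⊆ {x | p.IsRoot x} := by
      rintro _ ⟨τ, rfl⟩
      exact hroot τ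
    exact (Set.infinite_range_of_injective (pow_right_injective₀ (by linarith) hb1.ne')).mono h1
  by_cases hk : k ≤ Φ.totalDegree
  · have h1 : p.coeff k = aeval x (homogeneousComponent k Φ) := by
      rw [hp, Polynomial.finsetSum_coeff]
      simp_rw [Polynomial.coeff_C_mul_X_pow]
      rw [Finset.sum_ite_eq, if_pos (Finset.mem_range.2 (by omega))]
    rw [← h1, hp0, Polynomial.coeff_zero]
  · rw [homogeneousComponent_eq_zero _ _ (by omega), map_zero]

/-- **The dichotomy.** -/
theorem dich (b : ℕ) (hb : 2 ≤ b) (D : ℕ) (hn : n ≤ D) (c : Fin n → Fin r → ℤ)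
    (m l₀ : Fin r → ℕ) :
    (∃ a : Fin n → Fin r → ℕ, (∀ k, Rel D l₀ ⊆ Rel D (a k)) ∧
      ∀ l, Rel D l = Rel D l₀ → sub (b : ℤ) m l (jac c a) ≠ 0) ∨
    (∃ Φ : MvPolynomial (Fin n) ℚ, Φ ≠ 0 ∧ ∀ l, Rel D l = Rel D l₀ → ∀ τ : ℕ,
      aeval (fun i => (b : ℝ) ^ τ *
        ((∑ j, c i j * (b : ℤ) ^ (m j + l j) : ℤ) : ℝ)) Φ = 0) := by
  classical
  have hb0 : (0 : ℝ) < b := by positivity
  set S : Set (Fin r → ℕ) := {a | Rel D l₀ ⊆ Rel D a} with hS
  let cst : (Fin r → ℕ) → (Fin r → ℚ) := fun a j => (a j : ℚ)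
  obtain ⟨t, htS, htspan, htli⟩ := exists_linearIndependent ℚ (cst '' S)
  have htfin : t.Finite := htli.setFinite
  have : Fintype t := htfin.fintype
  have hex : ∀ y : t, ∃ a : Fin r → ℕ, a ∈ S ∧ cst a = y := fun y => by
    obtain ⟨a, ha1, ha2⟩ := htS y.2
    exact ⟨a, ha1, ha2⟩
  choose A hAS hAy using hex
  set T : Fin n → MvPolynomial t ℚ := fun i => psi (b : ℤ) m A (li (c i)) with hT
  by_cases hind : AlgebraicIndependent ℚ T
  · left
    obtain ⟨s, hs⟩ := Pool.Agent.H626R2.det_of_algInd T hind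
    refine ⟨fun k => A (s k), fun k => hAS _, fun l hl h0 => ?_⟩
    have h1 := psi_eq_zero (b : ℤ) m l A D n hn (fun y => comp_of_rel (by
      rw [hl]
      exact hAS y)) _ (jac_homog c _) h0
    rw [psi_jac] at h1
    rcases mul_eq_zero.1 h1 with h2 | h2
    · rw [Finset.prod_eq_zero_iff] at h2
      obtain ⟨k, _, hk⟩ := h2
      exact X_ne_zero _ hk
    · exact hs h2
  · right
    rw [algebraicIndependent_iff] at hind
    push Not at hind
    obtain ⟨Φ, hΦ, hΦ0⟩ := hind
    refine ⟨Φ, hΦ0, fun l hl τ => ?_⟩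
    have hspan : ∀ a ∈ S, ∃ κ : t → ℚ, ∀ j, ∑ y, κ y * (A y j : ℚ) = a j := by
      intro a ha
      have h1 : cst a ∈ Submodule.span ℚ t := by
        rw [htspan]
        exact Submodule.subset_span ⟨a, ha, rfl⟩
      have h2 : cst a ∈ Submodule.span ℚ (id '' t) := by rwa [Set.image_id]
      rw [Fintype.mem_span_image_iff_exists_fun] at h2
      obtain ⟨κ, hκ⟩ := h2
      refine ⟨κ, fun j => ?_⟩
      have h3 := congrFun hκ j
      rw [Finset.sum_apply] at h3
      rw [show (a j : ℚ) = cst a j from rfl, ← h3]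
      refine Finset.sum_congr rfl fun y _ => ?_
      rw [Pi.smul_apply, smul_eq_mul, id, ← hAy y]
    obtain ⟨κ, hκ⟩ := hspan l (by
      show Rel D l₀ ⊆ Rel D l
      rw [hl])
    obtain ⟨μ, hμ⟩ := hspan (fun _ => 1) (by
      intro p hp
      refine ⟨hp.1, ?_⟩
      simp only [mul_one]
      exact hp.1)
    let p : t → ℝ := fun y => (b : ℝ) ^ (((κ y + τ * μ y : ℚ)) : ℝ)
    have hpj : ∀ j, ∏ y, p y ^ (A y j) = (b : ℝ) ^ (l j + τ) := by
      intro j
      have h1 : ∀ y, p y ^ (A y j) = (b : ℝ) ^ (((κ y + τ * μ y) * (A y j : ℚ) : ℚ) : ℝ) := by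
        intro y
        simp only [p]
        rw [← Real.rpow_natCast, ← Real.rpow_mul hb0.le]
        congr 1
        push_cast
        ring
      rw [Finset.prod_congr rfl fun y _ => h1 y, ← Real.rpow_sum_of_pos hb0, ← Real.rpow_natCast]
      congr 1
      have h2 : ∑ y, (κ y + τ * μ y) * (A y j : ℚ) = ((l j + τ : ℕ) : ℚ) := by
        have h3 := hκ j
        have h4 := hμ j
        calc ∑ y, (κ y + τ * μ y) * (A y j : ℚ) =
            ∑ y, κ y * (A y j : ℚ) + τ * ∑ y, μ y * (A y j : ℚ) := by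
              rw [Finset.mul_sum, ← Finset.sum_add_distrib]
              exact Finset.sum_congr rfl fun y _ => by ring
          _ = _ := by
              rw [h3, h4]
              push_cast
              ring
      have h5 : ((∑ y, (κ y + τ * μ y) * (A y j : ℚ) : ℚ) : ℝ) = ((l j + τ : ℕ) : ℝ) := by
        rw [h2]
        push_cast
        rfl
      rw [← h5]
      push_cast
      rfl
    have hTi : ∀ i, aeval p (T i) = (b : ℝ) ^ τ *
        ((∑ j, c i j * (b : ℤ) ^ (m j + l j) : ℤ) : ℝ) := by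
      intro i
      simp only [T]
      unfold li psi
      rw [map_sum, map_sum]
      push_cast
      rw [Finset.mul_sum]
      refine Finset.sum_congr rfl fun j _ => ?_
      rw [map_mul, aeval_X, map_mul, map_mul, aeval_monomial, Finsupp.prod_fintype _ _ (by simp)]
      have h1 : ∏ y, p y ^ ((Finsupp.equivFunOnFinite.symm (fun y => A y j) : t →₀ ℕ) y) =
          (b : ℝ) ^ (l j + τ) := hpj j
      rw [h1, pow_add, pow_add]
      simp
      ring
    have h1 : aeval p (aeval T Φ) = aeval (fun i => aeval p (T i)) Φ := comp_aeval_apply _ _ _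
    rw [hΦ, map_zero] at h1
    have h2 : (fun i => aeval p (T i)) = fun i => (b : ℝ) ^ τ *
        ((∑ j, c i j * (b : ℤ) ^ (m j + l j) : ℤ) : ℝ) := funext hTi
    rw [← h2]
    exact h1.symm

end Pool.Agent.TH585.VF
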