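import Mathlib
import Pool.Agent.TH585.VF.Dich

/-!
# The dichotomy with weights from a finite set
-/

set_option autoImplicit false

namespace Pool.Agent.TH585.VF

open Finset MvPolynomial Pool.Agent.H458.Sp
open Pool.Agent.H531R2 (Eul wt)

variable {r n : ℕ}

/-- finitely many weight vectors compatible with the relations span all of them -/
theorem exists_span (D : ℕ) (R : Set ((Fin r → Fin (D + 1)) × (Fin r → Fin (D + 1)))) :
    ∃ AA : Finset (Fin r → ℕ), (∀ a ∈ AA, R ⊆ Rel D a) ∧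
      ∀ a : Fin r → ℕ, R ⊆ Rel D a → ∃ κ : AA → ℚ, ∀ j, ∑ y, κ y * (y.1 j : ℚ) = a j := by
  classical
  set S : Set (Fin r → ℕ) := {a | R ⊆ Rel D a} with hS
  let cst : (Fin r → ℕ) → (Fin r → ℚ) := fun a j => (a j : ℚ)
  obtain ⟨t, htS, htspan, htli⟩ := exists_linearIndependent ℚ (cst '' S)
  have htfin : t.Finite := htli.setFinite
  have : Fintype t := htfin.fintype
  have hex : ∀ y : t, ∃ a : Fin r → ℕ, a ∈ S ∧ cst a = y := fun y => by
    obtain ⟨a, ha1, ha2⟩ := htS y.2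
    exact ⟨a, ha1, ha2⟩
  choose A hAS hAy using hex
  have hAinj : Function.Injective A := by
    intro y y' h
    apply Subtype.ext
    rw [← hAy y, ← hAy y', h]
  refine ⟨univ.map ⟨A, hAinj⟩, ?_, ?_⟩
  · intro a ha
    rw [Finset.mem_map] at ha
    obtain ⟨y, _, rfl⟩ := ha
    exact hAS y
  intro a ha
  have h1 : cst a ∈ Submodule.span ℚ t := by
    rw [htspan]
    exact Submodule.subset_span ⟨a, ha, rfl⟩
  have h2 : cst a ∈ Submodule.span ℚ (id '' t) := by rwa [Set.image_id]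
  rw [Fintype.mem_span_image_iff_exists_fun] at h2
  obtain ⟨κ, hκ⟩ := h2
  let E : t ≃ {x // x ∈ (univ.map ⟨A, hAinj⟩ : Finset (Fin r → ℕ))} :=
    Equiv.ofBijective (fun y => ⟨A y, Finset.mem_map.2 ⟨y, mem_univ _, rfl⟩⟩) (by
      constructor
      · intro y y' h
        exact hAinj (congrArg Subtype.val h)
      · rintro ⟨x, hx⟩
        obtain ⟨y, _, hy⟩ := Finset.mem_map.1 hx
        exact ⟨y, Subtype.ext hy⟩)
  refine ⟨fun y => κ (E.symm y), fun j => ?_⟩
  have h3 := congrFun hκ j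
  rw [Finset.sum_apply] at h3
  rw [show (a j : ℚ) = cst a j from rfl, ← h3, ← Equiv.sum_comp E]
  refine Finset.sum_congr rfl fun y _ => ?_
  simp only
  rw [Equiv.symm_apply_apply, Pi.smul_apply, smul_eq_mul, id, ← hAy y]
  rfl

/-- **The dichotomy**, with weights from the given finite set. -/
theorem dichX (b : ℕ) (hb : 2 ≤ b) (D : ℕ) (hn : n ≤ D) (c : Fin n → Fin r → ℤ)
    (m l₀ : Fin r → ℕ) (AA : Finset (Fin r → ℕ)) (hA1 : ∀ a ∈ AA, Rel D l₀ ⊆ Rel D a)
    (hA2 : ∀ a : Fin r → ℕ, Rel D l₀ ⊆ Rel D a →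
      ∃ κ : AA → ℚ, ∀ j, ∑ y, κ y * (y.1 j : ℚ) = a j) :
    (∃ a : Fin n → Fin r → ℕ, (∀ k, a k ∈ AA) ∧
      ∀ l, Rel D l = Rel D l₀ → sub (b : ℤ) m l (jac c a) ≠ 0) ∨
    (∃ Φ : MvPolynomial (Fin n) ℚ, Φ ≠ 0 ∧ ∀ l, Rel D l = Rel D l₀ → ∀ τ : ℕ,
      aeval (fun i => (b : ℝ) ^ τ *
        ((∑ j, c i j * (b : ℤ) ^ (m j + l j) : ℤ) : ℝ)) Φ = 0) := by
  classical
  have hb0 : (0 : ℝ) < b := by positivity
  let A : AA → Fin r → ℕ := fun y => y.1
  set T : Fin n → MvPolynomial AA ℚ := fun i => psi (b : ℤ) m A (li (c i)) with hT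
  by_cases hind : AlgebraicIndependent ℚ T
  · left
    obtain ⟨s, hs⟩ := Pool.Agent.H626R2.det_of_algInd T hind
    refine ⟨fun k => A (s k), fun k => (s k).2, fun l hl h0 => ?_⟩
    have h1 := psi_eq_zero (b : ℤ) m l A D n hn (fun y => comp_of_rel (by
      rw [hl]
      exact hA1 y.1 y.2)) _ (jac_homog c _) h0
    rw [psi_jac] at h1
    rcases mul_eq_zero.1 h1 with h2 | h2
    · rw [Finset.prod_eq_zero_iff] at h2
      obtain ⟨k, _, hk⟩ := h2
      exact X_ne_zero _ hk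
    · exact hs h2
  · right
    rw [algebraicIndependent_iff] at hind
    push Not at hind
    obtain ⟨Φ, hΦ, hΦ0⟩ := hind
    refine ⟨Φ, hΦ0, fun l hl τ => ?_⟩
    obtain ⟨κ, hκ⟩ := hA2 l (by rw [hl])
    obtain ⟨μ, hμ⟩ := hA2 (fun _ => 1) (by
      intro p hp
      refine ⟨hp.1, ?_⟩
      simp only [mul_one]
      exact hp.1)
    let p : AA → ℝ := fun y => (b : ℝ) ^ (((κ y + τ * μ y : ℚ)) : ℝ)
    have hpj : ∀ j, ∏ y, p y ^ (A y j) = (b : ℝ) ^ (l j + τ) := by
      intro j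
      have h1 : ∀ y, p y ^ (A y j) = (b : ℝ) ^ (((κ y + τ * μ y) * (A y j : ℚ) : ℚ) : ℝ) := by
        intro y
        simp only [p]
        rw [← Real.rpow_natCast, ← Real.rpow_mul hb0.le]
        congr 1
        push_cast
        ring
      rw [Finset.prod_congr rfl fun y _ => h1 y, ← Real.rpow_sum_of_pos hb0, ← Real.rpow_natCast]
      congr 1
      have h2 : ∑ y, (κ y + τ * μ y) * (A y j : ℚ) = ((l j + τ : ℕ) : ℚ) := by
        have h3 := hκ j
        have h4 := hμ j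
        calc ∑ y, (κ y + τ * μ y) * (A y j : ℚ) =
            ∑ y, κ y * (A y j : ℚ) + τ * ∑ y, μ y * (A y j : ℚ) := by
              rw [Finset.mul_sum, ← Finset.sum_add_distrib]
              exact Finset.sum_congr rfl fun y _ => by ring
          _ = _ := by
              rw [h3, h4]
              push_cast
              ring
      have h5 : ((∑ y, (κ y + τ * μ y) * (A y j : ℚ) : ℚ) : ℝ) = ((l j + τ : ℕ) : ℝ) := by
        rw [h2]
        push_cast
        rfl
      rw [← h5]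
      push_cast
      rfl
    have hTi : ∀ i, aeval p (T i) = (b : ℝ) ^ τ *
        ((∑ j, c i j * (b : ℤ) ^ (m j + l j) : ℤ) : ℝ) := by
      intro i
      simp only [T]
      unfold li psi
      rw [map_sum, map_sum]
      push_cast
      rw [Finset.mul_sum]
      refine Finset.sum_congr rfl fun j _ => ?_
      rw [map_mul, aeval_X, map_mul, map_mul, aeval_monomial, Finsupp.prod_fintype _ _ (by simp)]
      have h1 : ∏ y, p y ^ ((Finsupp.equivFunOnFinite.symm (fun y => A y j) : AA →₀ ℕ) y) =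
          (b : ℝ) ^ (l j + τ) := hpj j
      rw [h1, pow_add, pow_add]
      simp
      ring
    have h1 : aeval p (aeval T Φ) = aeval (fun i => aeval p (T i)) Φ := comp_aeval_apply _ _ _
    rw [hΦ, map_zero] at h1
    have h2 : (fun i => aeval p (T i)) = fun i => (b : ℝ) ^ τ *
        ((∑ j, c i j * (b : ℤ) ^ (m j + l j) : ℤ) : ℝ) := funext hTi
    rw [← h2]
    exact h1.symm

end Pool.Agent.TH585.VF
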