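import Mathlib
import Pool.Agent.H458.Sp.FC

/-!
# Exponents as bounded part plus part with large gaps
-/

set_option autoImplicit false

namespace Pool.Agent.TH585.VF

open Finset MvPolynomial Pool.Agent.H458.Sp

variable {r : ℕ}

/-- a vector of exponents is the sum of a bounded vector and a vector for which the values of the
small linear forms are equal or far apart -/
theorem scale_split (D K : ℕ) : ∃ A₁ : ℕ, ∀ e : Fin r → ℕ, ∃ (A : ℕ) (m l : Fin r → ℕ),
    A ≤ A₁ ∧ (∀ j, m j + l j = e j) ∧ (∀ j, m j ≤ A) ∧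
    ∀ α β : Fin r →₀ ℕ, (∑ j, α j ≤ D) → (∑ j, β j ≤ D) → exn l α < exn l β →
      exn l α + K * (A + 1) ≤ exn l β := by
  classical
  set P := Fin r → Fin (D + 1) with hP
  set n₀ := Fintype.card P with hn₀
  let φ : Fin n₀ ≃ P := (Fintype.equivFin P).symm
  set A0 : ℕ := 2 * (2 * (2 * D + 1)) ^ r with hA0
  set M : ℕ := (D + K) * A0 + K + 1 with hM
  refine ⟨A0 * (M ^ (n₀ * n₀) * 1), fun e => ?_⟩
  obtain ⟨L, hL1, hL2, hL3⟩ := exists_scale M 1 (by omega)
    (fun k : Fin n₀ => ∑ j, ((φ k j : Fin (D + 1)) : ℕ) * e j)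
  have hidx : ∀ α : Fin r →₀ ℕ, (∑ j, α j ≤ D) →
      ∃ k : Fin n₀, (∑ j, ((φ k j : Fin (D + 1)) : ℕ) * e j) = exn e α := by
    intro α hα
    have h1 : ∀ j, α j < D + 1 := fun j => by
      have := Finset.single_le_sum (f := fun j => α j) (fun _ _ => Nat.zero_le _) (mem_univ j)
      omega
    refine ⟨φ.symm (fun j => ⟨α j, h1 j⟩), ?_⟩
    rw [Equiv.apply_symm_apply]
    rfl
  have hdich : ∀ α β : Fin r →₀ ℕ, (∑ j, α j ≤ D) → (∑ j, β j ≤ D) →
      exn e β - exn e α < L ∨ M * L ≤ exn e β - exn e α := by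
    intro α β hα hβ
    obtain ⟨k1, h1⟩ := hidx α hα
    obtain ⟨k2, h2⟩ := hidx β hβ
    have := hL3 k1 k2
    rw [h1, h2] at this
    exact this
  set RR : Set (Fin r → ℤ) := {R | ∃ α β : Fin r →₀ ℕ, ∑ j, α j ≤ D ∧ ∑ j, β j ≤ D ∧
    (exn e α < exn e β + L ∧ exn e β < exn e α + L) ∧ R = fun j => (α j : ℤ) - β j} with hRR
  have hrow : ∀ (α β : Fin r →₀ ℕ) (w : Fin r → ℕ), ∑ j, ((α j : ℤ) - β j) * (w j : ℤ) =
      (exn w α : ℤ) - exn w β := by
    intro α β w
    unfold exn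
    push_cast
    rw [← Finset.sum_sub_distrib]
    exact Finset.sum_congr rfl fun j _ => by ring
  obtain ⟨m, hm1, hm2, hm3⟩ := reduce_nat (2 * D + 1) L (by omega) hL1 RR (by
    rintro R ⟨α, β, h1, h2, _, rfl⟩
    have h3 : ∀ j, |(α j : ℤ) - β j| ≤ (α j : ℤ) + β j := by
      intro j
      rw [abs_le]
      constructor <;> omega
    calc ∑ j, |(α j : ℤ) - β j| ≤ ∑ j, ((α j : ℤ) + β j) := Finset.sum_le_sum fun j _ => h3 j
      _ = ((∑ j, α j + ∑ j, β j : ℕ) : ℤ) := by
        push_cast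
        rw [Finset.sum_add_distrib]
      _ ≤ ((2 * D + 1 : ℕ) : ℤ) := by
        exact_mod_cast (by omega)) (∑ j, e j) e
    (fun j => Finset.single_le_sum (f := e) (fun _ _ => Nat.zero_le _) (Finset.mem_univ j)) (by
    rintro R ⟨α, β, h1, h2, h3, rfl⟩
    rw [hrow, abs_le]
    constructor <;> omega)
  have hA0' : A0 = 2 * (2 * (2 * D + 1)) ^ r := rfl
  refine ⟨A0 * L, m, fun j => e j - m j, Nat.mul_le_mul_left _ hL2,
    fun j => Nat.add_sub_cancel' (hm1 j), fun j => ?_, ?_⟩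
  · rw [hA0']
    exact hm2 j
  intro α β hα hβ hlt
  have hsplit : ∀ γ : Fin r →₀ ℕ, exn e γ = exn m γ + exn (fun j => e j - m j) γ := by
    intro γ
    rw [← exn_add]
    congr 1
    funext j
    exact (Nat.add_sub_cancel' (hm1 j)).symm
  have hmb : ∀ γ : Fin r →₀ ℕ, (∑ j, γ j ≤ D) → exn m γ ≤ D * (A0 * L) := by
    intro γ hγ
    unfold exn
    calc ∑ j, γ j * m j ≤ ∑ j, γ j * (A0 * L) :=
          Finset.sum_le_sum fun j _ => Nat.mul_le_mul_left _ (hm2 j)
      _ = (∑ j, γ j) * (A0 * L) := by rw [Finset.sum_mul]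
      _ ≤ _ := Nat.mul_le_mul_right _ hγ
  have e1 := hsplit α
  have e2 := hsplit β
  have b1 := hmb α hα
  have b2 := hmb β hβ
  have hnot : ¬ (exn e α < exn e β + L ∧ exn e β < exn e α + L) := by
    intro h
    have h1 := hm3 _ ⟨α, β, hα, hβ, h, rfl⟩
    rw [hrow, hrow] at h1
    omega
  have hML : D * (A0 * L) + K * (A0 * L + 1) + D * (A0 * L) ≤ M * L + D * (A0 * L) := by
    have : D * (A0 * L) + K * (A0 * L + 1) ≤ M * L := by
      rw [hM]
      have : K ≤ K * L := Nat.le_mul_of_pos_right _ hL1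
      nlinarith
    omega
  have hML' : D * (A0 * L) + K * (A0 * L + 1) ≤ M * L := by omega
  have hMLL : L ≤ M * L := Nat.le_mul_of_pos_left _ (by omega)
  rcases hdich α β hα hβ with h | h
  · rcases hdich β α hβ hα with h' | h'
    · exact absurd ⟨by omega, by omega⟩ hnot
    · exfalso
      have : D * (A0 * L) + K * (A0 * L + 1) ≤ exn e α - exn e β := hML'.trans h'
      have h4 : 0 < exn e α - exn e β := by
        have : 1 ≤ M * L := by omega
        omega
      omega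
  · have : D * (A0 * L) + K * (A0 * L + 1) ≤ exn e β - exn e α := hML'.trans h
    have h4 : 0 < exn e β - exn e α := by
      have : 1 ≤ M * L := by omega
      omega
    omega

end Pool.Agent.TH585.VF
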