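import Mathlib

/-!
# Sizes of values of polynomials with large gaps
-/

set_option autoImplicit false

namespace Pool.Agent.TH585.VF

open Finset Polynomial

/-- the coefficients have absolute values at most `Q` in sum -/
def CoefBound (P : ℤ[X]) (Q : ℕ) : Prop := ∑ w ∈ P.support, |P.coeff w| ≤ Q

/-- different exponents in the support have distance at least `g` -/
def Gaps (P : ℤ[X]) (g : ℕ) : Prop := ∀ v ∈ P.support, ∀ w ∈ P.support, v < w → v + g ≤ w

theorem coeff_le_of_bound {P : ℤ[X]} {Q : ℕ} (h : CoefBound P Q) (w : ℕ) : |P.coeff w| ≤ Q := by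
  by_cases hw : w ∈ P.support
  · exact (Finset.single_le_sum (f := fun w => |P.coeff w|) (fun _ _ => abs_nonneg _) hw).trans h
  · rw [notMem_support_iff.1 hw, abs_zero]
    exact_mod_cast Nat.zero_le Q

/-- upper bound for the value -/
theorem eval_le {P : ℤ[X]} {Q : ℕ} (h : CoefBound P Q) (b : ℕ) (hb : 2 ≤ b) (δ : ℕ)
    (hδ : P.natDegree ≤ δ) : |P.eval (b : ℤ)| ≤ Q * (b : ℤ) ^ δ := by
  have hb0 : (0 : ℤ) < b := by positivity
  rw [eval_eq_sum, Polynomial.sum_def]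
  calc |∑ w ∈ P.support, P.coeff w * (b : ℤ) ^ w| ≤ ∑ w ∈ P.support, |P.coeff w| * (b : ℤ) ^ δ := by
        refine (Finset.abs_sum_le_sum_abs _ _).trans (Finset.sum_le_sum fun w hw => ?_)
        rw [abs_mul, abs_of_pos (pow_pos hb0 _)]
        refine mul_le_mul_of_nonneg_left ?_ (abs_nonneg _)
        have hb1 : (1 : ℤ) ≤ b := by omega
        exact pow_le_pow_right₀ hb1 ((le_natDegree_of_mem_supp w hw).trans hδ)
    _ = (∑ w ∈ P.support, |P.coeff w|) * (b : ℤ) ^ δ := by rw [Finset.sum_mul]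
    _ ≤ _ := mul_le_mul_of_nonneg_right h (pow_pos hb0 _).le

/-- lower bound for the value -/
theorem le_eval {P : ℤ[X]} (hP : P ≠ 0) {Q g : ℕ} (h : CoefBound P Q) (hg : Gaps P g) (b : ℕ)
    (hb : 2 ≤ b) (hQ : 2 * Q ≤ b ^ g) : (b : ℤ) ^ P.natDegree ≤ 2 * |P.eval (b : ℤ)| := by
  classical
  have hb0 : (0 : ℤ) < b := by positivity
  have hb1 : (1 : ℤ) ≤ b := by omega
  set W := P.natDegree with hW
  have hWs : W ∈ P.support := natDegree_mem_support_of_nonzero hP
  have hc : (1 : ℤ) ≤ |P.coeff W| := Int.one_le_abs (mem_support_iff.1 hWs)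
  have hev : P.eval (b : ℤ) = P.coeff W * (b : ℤ) ^ W +
      ∑ w ∈ P.support.erase W, P.coeff w * (b : ℤ) ^ w := by
    rw [eval_eq_sum, Polynomial.sum_def, Finset.add_sum_erase _ (fun w => P.coeff w * (b : ℤ) ^ w) hWs]
  have hrest : 2 * |∑ w ∈ P.support.erase W, P.coeff w * (b : ℤ) ^ w| ≤ (b : ℤ) ^ W := by
    rcases (P.support.erase W).eq_empty_or_nonempty with h0 | ⟨w0, hw0⟩
    · rw [h0]
      simp only [Finset.sum_empty, abs_zero, mul_zero]
      exact (pow_pos hb0 _).le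
    have hle : ∀ w ∈ P.support.erase W, w + g ≤ W := by
      intro w hw
      rw [Finset.mem_erase] at hw
      exact hg w hw.2 W hWs (lt_of_le_of_ne (le_natDegree_of_mem_supp w hw.2) hw.1)
    have hgW : g ≤ W := by
      have := hle w0 hw0
      omega
    have h1 : |∑ w ∈ P.support.erase W, P.coeff w * (b : ℤ) ^ w| ≤ Q * (b : ℤ) ^ (W - g) := by
      calc |∑ w ∈ P.support.erase W, P.coeff w * (b : ℤ) ^ w|
          ≤ ∑ w ∈ P.support.erase W, |P.coeff w| * (b : ℤ) ^ (W - g) := by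
            refine (Finset.abs_sum_le_sum_abs _ _).trans (Finset.sum_le_sum fun w hw => ?_)
            rw [abs_mul, abs_of_pos (pow_pos hb0 _)]
            refine mul_le_mul_of_nonneg_left ?_ (abs_nonneg _)
            have := hle w hw
            exact pow_le_pow_right₀ hb1 (by omega)
        _ ≤ ∑ w ∈ P.support, |P.coeff w| * (b : ℤ) ^ (W - g) := by
            refine Finset.sum_le_sum_of_subset_of_nonneg (Finset.erase_subset _ _) fun w _ _ => ?_
            positivity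
        _ = (∑ w ∈ P.support, |P.coeff w|) * (b : ℤ) ^ (W - g) := by rw [Finset.sum_mul]
        _ ≤ _ := mul_le_mul_of_nonneg_right h (pow_pos hb0 _).le
    have h2 : (2 * Q : ℤ) ≤ (b : ℤ) ^ g := by exact_mod_cast hQ
    calc 2 * |∑ w ∈ P.support.erase W, P.coeff w * (b : ℤ) ^ w|
        ≤ (2 * Q) * (b : ℤ) ^ (W - g) := by linarith
      _ ≤ (b : ℤ) ^ g * (b : ℤ) ^ (W - g) := mul_le_mul_of_nonneg_right h2 (pow_pos hb0 _).le
      _ = (b : ℤ) ^ W := by rw [← pow_add, Nat.add_sub_cancel' hgW]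
  have hmain : (b : ℤ) ^ W ≤ |P.coeff W * (b : ℤ) ^ W| := by
    rw [abs_mul, abs_of_pos (pow_pos hb0 W)]
    nlinarith [pow_pos hb0 W]
  rw [hev]
  have h3 := abs_sub_abs_le_abs_sub (P.coeff W * (b : ℤ) ^ W)
    (-(∑ w ∈ P.support.erase W, P.coeff w * (b : ℤ) ^ w))
  rw [abs_neg, sub_neg_eq_add] at h3
  linarith

theorem eval_ne_zero {P : ℤ[X]} (hP : P ≠ 0) {Q g : ℕ} (h : CoefBound P Q) (hg : Gaps P g)
    (b : ℕ) (hb : 2 ≤ b) (hQ : 2 * Q ≤ b ^ g) : P.eval (b : ℤ) ≠ 0 := by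
  intro h0
  have := le_eval hP h hg b hb hQ
  rw [h0, abs_zero, mul_zero] at this
  have hb0 : (0 : ℤ) < b := by positivity
  have := pow_pos hb0 P.natDegree
  omega

/-- the valuation of the value at a prime divisor of the base -/
theorem val_le {P : ℤ[X]} (hP : P ≠ 0) {Q g : ℕ} (h : CoefBound P Q) (hg : Gaps P g)
    (b : ℕ) (hb : 2 ≤ b) (hQ : 2 * Q < 2 ^ g) {p : ℕ} (hp : p.Prime) (hpb : p ∣ b) :
    padicValInt p (P.eval (b : ℤ)) ≤
      padicValInt p ((b : ℤ) ^ P.natTrailingDegree * P.coeff P.natTrailingDegree) := by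
  classical
  have : Fact p.Prime := ⟨hp⟩
  have hb0 : (0 : ℤ) < b := by positivity
  set w0 := P.natTrailingDegree with hw0
  set c := P.coeff w0 with hc
  have hc0 : c ≠ 0 := by
    rw [hc, hw0]
    exact trailingCoeff_nonzero_iff_nonzero.2 hP
  have hws : w0 ∈ P.support := mem_support_iff.2 hc0
  have hbg : 2 * Q ≤ b ^ g := hQ.le.trans (Nat.pow_le_pow_left hb g)
  have hev0 := eval_ne_zero hP h hg b hb hbg
  have hX : (b : ℤ) ^ w0 * c ≠ 0 := mul_ne_zero (pow_pos hb0 _).ne' hc0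
  -- the value is congruent to the lowest term
  have hdvd : (b : ℤ) ^ (w0 + g) ∣ P.eval (b : ℤ) - (b : ℤ) ^ w0 * c := by
    have : P.eval (b : ℤ) = P.coeff w0 * (b : ℤ) ^ w0 +
        ∑ w ∈ P.support.erase w0, P.coeff w * (b : ℤ) ^ w := by
      rw [eval_eq_sum, Polynomial.sum_def, Finset.add_sum_erase _ (fun w => P.coeff w * (b : ℤ) ^ w) hws]
    rw [this, ← hc]
    have h1 : (b : ℤ) ^ (w0 + g) ∣ ∑ w ∈ P.support.erase w0, P.coeff w * (b : ℤ) ^ w := by
      refine Finset.dvd_sum fun w hw => ?_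
      rw [Finset.mem_erase] at hw
      have h2 : w0 < w := lt_of_le_of_ne (natTrailingDegree_le_of_mem_supp w hw.2) (Ne.symm hw.1)
      exact (pow_dvd_pow _ (hg w0 hws w hw.2 h2)).mul_left _
    have h3 : c * (b : ℤ) ^ w0 + ∑ w ∈ P.support.erase w0, P.coeff w * (b : ℤ) ^ w -
        (b : ℤ) ^ w0 * c = ∑ w ∈ P.support.erase w0, P.coeff w * (b : ℤ) ^ w := by ring
    rw [h3]
    exact h1
  -- the valuation of the coefficient is small
  set u := padicValInt p ((b : ℤ) ^ w0 * c) with hu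
  by_contra hcon
  push Not at hcon
  have hpu : (p : ℤ) ^ (u + 1) ∣ P.eval (b : ℤ) :=
    (pow_dvd_pow _ hcon).trans (padicValInt_dvd _)
  have hvb : padicValInt p ((b : ℤ) ^ w0 * c) = padicValInt p ((b : ℤ) ^ w0) + padicValInt p c := by
    exact padicValInt.mul (pow_pos hb0 _).ne' hc0
  have hcle : padicValInt p c < g := by
    have h1 : (p : ℤ) ^ padicValInt p c ∣ c := padicValInt_dvd _
    have h2 : (p : ℤ) ^ padicValInt p c ≤ |c| :=
      Int.le_of_dvd (abs_pos.2 hc0) ((dvd_abs _ _).2 h1)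
    have h3 : |c| ≤ Q := coeff_le_of_bound h w0
    have h4 : (2 : ℤ) ^ padicValInt p c ≤ (p : ℤ) ^ padicValInt p c :=
      pow_le_pow_left₀ (by norm_num) (by exact_mod_cast hp.two_le) _
    have h5 : (2 : ℤ) ^ padicValInt p c < 2 ^ g := by
      have : (2 * Q : ℤ) < 2 ^ g := by exact_mod_cast hQ
      have hQ0 : (0 : ℤ) ≤ Q := by positivity
      linarith
    exact (pow_lt_pow_iff_right₀ (by norm_num : (1 : ℤ) < 2)).1 h5
  -- `p ^ (u + 1)` divides `b ^ (w0 + g)`
  have hpw : (p : ℤ) ^ (u + 1) ∣ (b : ℤ) ^ (w0 + g) := by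
    have hpb' : (p : ℤ) ∣ (b : ℤ) := by exact_mod_cast hpb
    have h1 : (p : ℤ) ^ padicValInt p ((b : ℤ) ^ w0) ∣ (b : ℤ) ^ w0 := padicValInt_dvd _
    have h2 : (p : ℤ) ^ g ∣ (b : ℤ) ^ g := pow_dvd_pow_of_dvd hpb' g
    have h3 := mul_dvd_mul h1 h2
    rw [← pow_add, ← pow_add] at h3
    exact (pow_dvd_pow _ (by omega)).trans h3
  have hfin : (p : ℤ) ^ (u + 1) ∣ (b : ℤ) ^ w0 * c := by
    have h1 := hpw.trans hdvd
    have h2 := dvd_sub hpu h1
    have h3 : P.eval (b : ℤ) - (P.eval (b : ℤ) - (b : ℤ) ^ w0 * c) = (b : ℤ) ^ w0 * c := by ring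
    rwa [h3] at h2
  have := (padicValInt_dvd_iff _ _).1 hfin
  rcases this with h1 | h1
  · exact hX h1
  · omega

/-- the sum of the logarithms of the prime powers in an integer -/
theorem sum_val_log_le (s : Finset ℕ) (hs : ∀ p ∈ s, p.Prime) (n : ℤ) (hn : n ≠ 0) :
    ∑ p ∈ s, (padicValInt p n : ℝ) * Real.log p ≤ Real.log |(n : ℝ)| := by
  have h1 : ∏ p ∈ s, p ^ padicValInt p n ∣ n.natAbs := by
    refine Finset.prod_dvd_of_isRelPrime (fun p hp q hq hpq => ?_) fun p _ => ?_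
    · exact Nat.coprime_iff_isRelPrime.1 (Nat.Coprime.pow _ _
        ((Nat.coprime_primes (hs p hp) (hs q hq)).2 hpq))
    · have := padicValInt_dvd (p := p) n
      have h2 := Int.natAbs_dvd_natAbs.2 this
      rwa [Int.natAbs_pow, Int.natAbs_natCast] at h2
  have h2 : ∏ p ∈ s, p ^ padicValInt p n ≤ n.natAbs := Nat.le_of_dvd (Int.natAbs_pos.2 hn) h1
  have h3 : ∑ p ∈ s, (padicValInt p n : ℝ) * Real.log p =
      Real.log ((∏ p ∈ s, p ^ padicValInt p n : ℕ) : ℝ) := by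
    push_cast
    rw [Real.log_prod]
    · refine Finset.sum_congr rfl fun p _ => ?_
      rw [Real.log_pow]
    · intro p hp
      have := (hs p hp).pos
      positivity
  rw [h3]
  apply Real.log_le_log
  · have : 0 < ∏ p ∈ s, p ^ padicValInt p n :=
      Finset.prod_pos fun p hp => Nat.pow_pos (hs p hp).pos
    exact_mod_cast this
  · have h4 : ((n.natAbs : ℕ) : ℝ) = |(n : ℝ)| := by
      rw [Nat.cast_natAbs, Int.cast_abs]
    rw [← h4]
    exact_mod_cast h2

/-- the sum over the prime divisors of the base -/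
theorem sum_val_le {P : ℤ[X]} (hP : P ≠ 0) {Q g : ℕ} (h : CoefBound P Q) (hg : Gaps P g)
    (b : ℕ) (hb : 2 ≤ b) (hQ : 2 * Q < 2 ^ g) :
    ∑ p ∈ b.primeFactors, (padicValInt p (P.eval (b : ℤ)) : ℝ) * Real.log p ≤
      P.natTrailingDegree * Real.log b + Real.log (Q : ℝ) := by
  have hc0 : P.coeff P.natTrailingDegree ≠ 0 := trailingCoeff_nonzero_iff_nonzero.2 hP
  have hb0 : (0 : ℝ) < b := by positivity
  have hbz : (b : ℤ) ^ P.natTrailingDegree ≠ 0 := by
    have : (0 : ℤ) < b := by positivity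
    exact (pow_pos this _).ne'
  have h1 : ∑ p ∈ b.primeFactors, (padicValInt p (P.eval (b : ℤ)) : ℝ) * Real.log p ≤
      ∑ p ∈ b.primeFactors, (padicValInt p ((b : ℤ) ^ P.natTrailingDegree *
        P.coeff P.natTrailingDegree) : ℝ) * Real.log p := by
    refine Finset.sum_le_sum fun p hp => ?_
    have hpp := Nat.prime_of_mem_primeFactors hp
    refine mul_le_mul_of_nonneg_right ?_ (Real.log_natCast_nonneg p)
    exact_mod_cast val_le hP h hg b hb hQ hpp (Nat.dvd_of_mem_primeFactors hp)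
  refine h1.trans ((sum_val_log_le _ (fun p hp => Nat.prime_of_mem_primeFactors hp) _
    (mul_ne_zero hbz hc0)).trans ?_)
  have hcR : (0 : ℝ) < |((P.coeff P.natTrailingDegree : ℤ) : ℝ)| := abs_pos.2 (by exact_mod_cast hc0)
  push_cast
  rw [abs_mul, abs_of_pos (pow_pos hb0 _), Real.log_mul (pow_pos hb0 _).ne' hcR.ne', Real.log_pow]
  have h2 : |((P.coeff P.natTrailingDegree : ℤ) : ℝ)| ≤ (Q : ℝ) := by
    have := coeff_le_of_bound h P.natTrailingDegree
    exact_mod_cast this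
  have := Real.log_le_log hcR h2
  linarith

end Pool.Agent.TH585.VF
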