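import Mathlib
import Pool.Agent.TH585.VF.Gap
import Pool.Agent.TH585.VF.Size
import Pool.Agent.TH585.VF.Rev

/-!
# Sizes: from the combinatorial inequality to the inequality of heights
-/

set_option autoImplicit false

namespace Pool.Agent.TH585.VF

open Finset MvPolynomial Pool.Agent.H458.Sp
open Pool.Agent.H531R2 (Eul wt)

variable {r n : ℕ}

/-- the values of the small linear forms at `l` are equal or far apart -/
def Gapped (D g : ℕ) (l : Fin r → ℕ) : Prop :=
  ∀ α β : Fin r →₀ ℕ, (∑ j, α j ≤ D) → (∑ j, β j ≤ D) → exn l α < exn l β →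
    exn l α + g ≤ exn l β

theorem sub_gaps (b : ℤ) (m l : Fin r → ℕ) (D g : ℕ) (hl : Gapped D g l)
    (G : MvPolynomial (Fin r) ℤ) (hG : ∀ α ∈ G.support, ∑ j, α j ≤ D) :
    Gaps (sub b m l G) g := by
  classical
  have h1 : ∀ w ∈ (sub b m l G).support, ∃ α ∈ G.support, w = exn l α := by
    intro w hw
    rw [Polynomial.mem_support_iff, sub_coeff] at hw
    obtain ⟨α, hα, _⟩ := Finset.exists_ne_zero_of_sum_ne_zero hw
    rw [Finset.mem_filter] at hα
    exact ⟨α, hα.1, hα.2⟩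
  intro v hv w hw hvw
  obtain ⟨α, hα, rfl⟩ := h1 v hv
  obtain ⟨β, hβ, rfl⟩ := h1 w hw
  exact hl α β (hG α hα) (hG β hβ) hvw

theorem sub_coefBound (b : ℕ) (hb : 2 ≤ b) (m l : Fin r → ℕ) (D A : ℕ) (hm : ∀ j, m j ≤ A)
    (G : MvPolynomial (Fin r) ℤ) (hG : ∀ α ∈ G.support, ∑ j, α j ≤ D) (W : ℕ) (hW : nz G ≤ W) :
    CoefBound (sub (b : ℤ) m l G) (W * b ^ (D * A)) := by
  classical
  have hb0 : (0 : ℤ) < b := by positivity
  have hb1 : (1 : ℤ) ≤ b := by
    have : (2 : ℤ) ≤ b := by exact_mod_cast hb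
    linarith
  unfold CoefBound
  have h1 : ∀ w, |(sub (b : ℤ) m l G).coeff w| ≤
      ∑ α ∈ G.support, if w = exn l α then |coeff α G| * (b : ℤ) ^ (D * A) else 0 := by
    intro w
    rw [sub_coeff, ← Finset.sum_filter]
    refine (Finset.abs_sum_le_sum_abs _ _).trans (Finset.sum_le_sum fun α hα => ?_)
    rw [Finset.mem_filter] at hα
    rw [abs_mul, abs_of_pos (pow_pos hb0 _), mul_comm]
    refine mul_le_mul_of_nonneg_left (pow_le_pow_right₀ hb1 ?_) (abs_nonneg _)
    unfold exn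
    calc ∑ j, α j * m j ≤ ∑ j, α j * A :=
          Finset.sum_le_sum fun j _ => Nat.mul_le_mul_left _ (hm j)
      _ = (∑ j, α j) * A := by rw [Finset.sum_mul]
      _ ≤ _ := Nat.mul_le_mul_right _ (hG α hα.1)
  calc ∑ w ∈ (sub (b : ℤ) m l G).support, |(sub (b : ℤ) m l G).coeff w| ≤
      ∑ w ∈ (sub (b : ℤ) m l G).support, ∑ α ∈ G.support,
        (if w = exn l α then |coeff α G| * (b : ℤ) ^ (D * A) else 0) :=
          Finset.sum_le_sum fun w _ => h1 w
    _ = ∑ α ∈ G.support, ∑ w ∈ (sub (b : ℤ) m l G).support,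
        (if w = exn l α then |coeff α G| * (b : ℤ) ^ (D * A) else 0) := Finset.sum_comm
    _ ≤ ∑ α ∈ G.support, |coeff α G| * (b : ℤ) ^ (D * A) := by
        refine Finset.sum_le_sum fun α _ => ?_
        rw [Finset.sum_ite_eq']
        split_ifs
        · exact le_rfl
        · positivity
    _ = nz G * (b : ℤ) ^ (D * A) := by
        unfold nz
        rw [Finset.sum_mul]
    _ ≤ W * (b : ℤ) ^ (D * A) := mul_le_mul_of_nonneg_right hW (by positivity)
    _ = ((W * b ^ (D * A) : ℕ) : ℤ) := by push_cast; rfl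

theorem two_mul_lt (b : ℕ) (D A W : ℕ) :
    2 * (W * b ^ (D * A)) < 2 ^ ((b * D + W + 1) * (A + 1)) := by
  have h1 : W < 2 ^ W := Nat.lt_two_pow_self
  have h2 : b ^ (D * A) ≤ 2 ^ (b * (D * A)) := by
    calc b ^ (D * A) ≤ (2 ^ b) ^ (D * A) := Nat.pow_le_pow_left (Nat.lt_two_pow_self).le _
      _ = 2 ^ (b * (D * A)) := (pow_mul _ _ _).symm
  calc 2 * (W * b ^ (D * A)) ≤ 2 * (W * 2 ^ (b * (D * A))) :=
        Nat.mul_le_mul_left _ (Nat.mul_le_mul_left _ h2)
    _ < 2 * (2 ^ W * 2 ^ (b * (D * A))) := by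
        have : 0 < 2 ^ (b * (D * A)) := by positivity
        have := Nat.mul_lt_mul_of_pos_right h1 this
        omega
    _ = 2 ^ (1 + W + b * (D * A)) := by
        rw [pow_add, pow_add]
        ring
    _ ≤ _ := by
        apply Nat.pow_le_pow_right (by norm_num)
        nlinarith [Nat.zero_le (b * D), Nat.zero_le (W * A)]

/-- the inequality of heights at one point -/
theorem fin_ineq (b : ℕ) (hb : 2 ≤ b) (m l : Fin r → ℕ) (c : Fin n → Fin r → ℤ)
    (a : Fin n → Fin r → ℕ)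
    (D : ℕ) (hD : 1 ≤ D) (hcomp : ∀ k, Comp D l (a k)) {q : ℕ}
    (F : Fin q → MvPolynomial (Fin n) ℤ) (d : Fin q → ℕ)
    (hF : ∀ i, (F i).IsHomogeneous (d i)) (hdD : ∀ i, d i ≤ D)
    (hnc : ∀ z : Fin n → ℤ, z ≠ 0 → ∀ κ : Fin q → ℤ, (∀ i, κ i ≠ 0 → eval z (F i) = 0) →
      (∀ j, ∑ i, κ i * eval z (pderiv j (F i)) = 0) → κ = 0)
    (hjac : sub (b : ℤ) m l (jac c a) ≠ 0) (W A : ℕ) (hW1 : 1 ≤ W)
    (hW : ∀ i, nz (li (c i)) ≤ W) (hW' : ∀ i, nz (bind₁ (fun i => li (c i)) (F i)) ≤ W)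
    (hm : ∀ j, m j ≤ A) (hl : Gapped D ((b * D + W + 1) * (A + 1)) l)
    (x : Fin n → ℤ) (hx : ∀ i, x i = ∑ j, c i j * (b : ℤ) ^ (m j + l j))
    (hprim : univ.gcd x = 1) (hFx : ∀ i, eval x (F i) ≠ 0) (H : ℕ)
    (hH : H = univ.sup (fun i => (x i).natAbs)) :
    ∑ i, (Real.log ((H : ℝ) ^ d i / |((eval x (F i) : ℤ) : ℝ)|) +
      ∑ p ∈ b.primeFactors, (padicValInt p (eval x (F i)) : ℝ) * Real.log p) ≤
      n * Real.log H + (n * Real.log 2 +
        ∑ i, ((d i + 1) * Real.log ((W * b ^ (D * A) : ℕ) : ℝ) + Real.log 2)) := by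
  classical
  have hb0 : (0 : ℤ) < b := by positivity
  set Q : ℕ := W * b ^ (D * A) with hQ
  set g : ℕ := (b * D + W + 1) * (A + 1) with hg
  have hQg : 2 * Q < 2 ^ g := two_mul_lt b D A W
  have hQbg : 2 * Q ≤ b ^ g := hQg.le.trans (Nat.pow_le_pow_left hb g)
  have hQ1 : 1 ≤ Q := Nat.mul_pos hW1 (Nat.pow_pos (by omega))
  set γ : Fin n → Polynomial ℤ := fun i => sub (b : ℤ) m l (li (c i)) with hγ
  set P : Fin q → Polynomial ℤ :=
    fun i => sub (b : ℤ) m l (bind₁ (fun i => li (c i)) (F i)) with hP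
  have hli1 : ∀ i, ∀ α ∈ (li (c i)).support, ∑ j, α j ≤ D := by
    intro i α hα
    rw [homog_sum (li_homog (c i)) hα]
    exact hD
  have hbi1 : ∀ i, ∀ α ∈ (bind₁ (fun i => li (c i)) (F i)).support, ∑ j, α j ≤ D := by
    intro i α hα
    rw [homog_sum (bind_homog c (F i) (hF i)) hα]
    exact hdD i
  have hγQ : ∀ i, CoefBound (γ i) Q := fun i =>
    sub_coefBound b hb m l D A hm _ (hli1 i) W (hW i)
  have hPQ : ∀ i, CoefBound (P i) Q := fun i =>
    sub_coefBound b hb m l D A hm _ (hbi1 i) W (hW' i)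
  have hγg : ∀ i, Gaps (γ i) g := fun i => sub_gaps (b : ℤ) m l D g hl _ (hli1 i)
  have hPg : ∀ i, Gaps (P i) g := fun i => sub_gaps (b : ℤ) m l D g hl _ (hbi1 i)
  have hγx : ∀ i, (γ i).eval (b : ℤ) = x i := by
    intro i
    rw [hγ, hx]
    simp only
    rw [sub_eval, eval_li]
    exact Finset.sum_congr rfl fun j _ => mul_comm _ _
  have hPx : ∀ i, (P i).eval (b : ℤ) = eval x (F i) := by
    intro i
    rw [hP]
    simp only
    rw [sub_eval, eval_bind]
    congr 1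
    have h1 : (fun i => eval (fun j => (b : ℤ) ^ (m j + l j)) (li (c i))) = x := by
      funext i
      rw [hx, eval_li]
      exact Finset.sum_congr rfl fun j _ => mul_comm _ _
    rw [h1]
  have hP0 : ∀ i, P i ≠ 0 := by
    intro i h0
    apply hFx i
    rw [← hPx, h0, Polynomial.eval_zero]
  -- the point is not zero
  obtain ⟨i1, hi1⟩ : ∃ i, ¬ (Polynomial.X : Polynomial ℤ) ∣ γ i := by
    by_contra hcon
    push Not at hcon
    have h1 : (b : ℤ) ∣ univ.gcd x := by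
      apply Finset.dvd_gcd
      intro i _
      obtain ⟨y, hy⟩ := hcon i
      rw [← hγx, hy, Polynomial.eval_mul, Polynomial.eval_X]
      exact dvd_mul_right _ _
    rw [hprim] at h1
    have h2 := Int.le_of_dvd one_pos h1
    have : (2 : ℤ) ≤ b := by exact_mod_cast hb
    linarith
  have hγi1 : γ i1 ≠ 0 := fun h0 => hi1 (by rw [h0]; exact dvd_zero _)
  set δ : ℕ := univ.sup (fun i => (γ i).natDegree) with hδ
  have hδle : ∀ i, (γ i).natDegree ≤ δ := fun i =>
    Finset.le_sup (f := fun i => (γ i).natDegree) (mem_univ i)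
  obtain ⟨i0, hi00, hi0⟩ : ∃ i, γ i ≠ 0 ∧ (γ i).natDegree = δ := by
    obtain ⟨i, _, hi⟩ := Finset.exists_mem_eq_sup univ ⟨i1, mem_univ _⟩
      (fun i => (γ i).natDegree)
    by_cases h0 : γ i = 0
    · refine ⟨i1, hγi1, ?_⟩
      have h1 : δ = 0 := by
        rw [hδ, hi, h0, Polynomial.natDegree_zero]
      have := hδle i1
      omega
    · exact ⟨i, h0, hi.symm⟩
  have hcomb := comb_ineq (b : ℤ) m l c a D hD hcomp F d hF hdD hnc ⟨i1, hi1⟩ δ hδle
    ⟨i0, hi00, hi0⟩ hP0 hjac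
  -- sizes
  have hbR : (0 : ℝ) < b := by positivity
  have hlogb : 0 < Real.log b := Real.log_pos (by
    have : (2 : ℝ) ≤ b := by exact_mod_cast hb
    linarith)
  have hxH : ∀ i, |x i| ≤ (H : ℤ) := by
    intro i
    rw [Int.abs_eq_natAbs, hH]
    exact_mod_cast Finset.le_sup (f := fun i => (x i).natAbs) (mem_univ i)
  have hbδ : (b : ℝ) ^ δ ≤ 2 * H := by
    have h1 := le_eval hi00 (hγQ i0) (hγg i0) b hb hQbg
    rw [hi0, hγx] at h1
    have h2 : (b : ℤ) ^ δ ≤ 2 * H := h1.trans (by linarith [hxH i0])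
    exact_mod_cast h2
  have hH0 : (0 : ℝ) < H := by
    have : (0 : ℝ) < (b : ℝ) ^ δ := pow_pos hbR _
    linarith
  have hHQ : (H : ℝ) ≤ Q * (b : ℝ) ^ δ := by
    obtain ⟨i, _, hi⟩ := Finset.exists_mem_eq_sup univ ⟨i1, mem_univ _⟩
      (fun i => (x i).natAbs)
    have h1 := eval_le (hγQ i) b hb δ (hδle i)
    rw [hγx, Int.abs_eq_natAbs] at h1
    rw [hH, hi]
    exact_mod_cast h1
  have hlog1 : Real.log H ≤ Real.log Q + δ * Real.log b := by
    have h1 := Real.log_le_log hH0 hHQ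
    rw [Real.log_mul (by positivity) (pow_pos hbR _).ne', Real.log_pow] at h1
    exact h1
  have hlog2 : δ * Real.log b ≤ Real.log 2 + Real.log H := by
    have h1 := Real.log_le_log (pow_pos hbR _) hbδ
    rw [Real.log_mul (by norm_num) hH0.ne', Real.log_pow] at h1
    exact h1
  have hlogQ : 0 ≤ Real.log Q := Real.log_natCast_nonneg Q
  have hterm : ∀ i, Real.log ((H : ℝ) ^ d i / |((eval x (F i) : ℤ) : ℝ)|) +
      ∑ p ∈ b.primeFactors, (padicValInt p (eval x (F i)) : ℝ) * Real.log p ≤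
      ((d i * δ + (P i).natTrailingDegree : ℕ) : ℝ) * Real.log b -
        ((P i).natDegree : ℝ) * Real.log b +
          ((d i + 1) * Real.log Q + Real.log 2) := by
    intro i
    have hF0 : (0 : ℝ) < |((eval x (F i) : ℤ) : ℝ)| := abs_pos.2 (by exact_mod_cast hFx i)
    have h1 : ((P i).natDegree : ℝ) * Real.log b ≤
        Real.log 2 + Real.log |((eval x (F i) : ℤ) : ℝ)| := by
      have h2 := le_eval (hP0 i) (hPQ i) (hPg i) b hb hQbg
      rw [hPx] at h2
      have h3 : (b : ℝ) ^ (P i).natDegree ≤ 2 * |((eval x (F i) : ℤ) : ℝ)| := by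
        exact_mod_cast h2
      have h4 := Real.log_le_log (pow_pos hbR _) h3
      rw [Real.log_mul (by norm_num) hF0.ne', Real.log_pow] at h4
      exact h4
    have h2 := sum_val_le (hP0 i) (hPQ i) (hPg i) b hb hQg
    rw [hPx] at h2
    have h3 : Real.log ((H : ℝ) ^ d i / |((eval x (F i) : ℤ) : ℝ)|) =
        d i * Real.log H - Real.log |((eval x (F i) : ℤ) : ℝ)| := by
      rw [Real.log_div (pow_pos hH0 _).ne' hF0.ne', Real.log_pow]
    rw [h3]
    have h4 : (d i : ℝ) * Real.log H ≤ d i * (Real.log Q + δ * Real.log b) :=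
      mul_le_mul_of_nonneg_left hlog1 (by positivity)
    push_cast
    nlinarith
  calc ∑ i, (Real.log ((H : ℝ) ^ d i / |((eval x (F i) : ℤ) : ℝ)|) +
      ∑ p ∈ b.primeFactors, (padicValInt p (eval x (F i)) : ℝ) * Real.log p) ≤
      ∑ i, (((d i * δ + (P i).natTrailingDegree : ℕ) : ℝ) * Real.log b -
        ((P i).natDegree : ℝ) * Real.log b +
          ((d i + 1) * Real.log Q + Real.log 2)) := Finset.sum_le_sum fun i _ => hterm i
    _ = ((∑ i, (d i * δ + (P i).natTrailingDegree) : ℕ) : ℝ) * Real.log b -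
        ((∑ i, (P i).natDegree : ℕ) : ℝ) * Real.log b +
          ∑ i, ((d i + 1) * Real.log Q + Real.log 2) := by
        rw [Finset.sum_add_distrib, Finset.sum_sub_distrib, ← Finset.sum_mul, ← Finset.sum_mul]
        push_cast
        rfl
    _ ≤ (n * δ : ℝ) * Real.log b + ∑ i, ((d i + 1) * Real.log Q + Real.log 2) := by
        have h1 : ((∑ i, (d i * δ + (P i).natTrailingDegree) : ℕ) : ℝ) ≤
            n * δ + ((∑ i, (P i).natDegree : ℕ) : ℝ) := by
          exact_mod_cast hcomb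
        have h2 := mul_le_mul_of_nonneg_right h1 hlogb.le
        rw [add_mul] at h2
        linarith
    _ ≤ _ := by
        have h1 : (n : ℝ) * (δ * Real.log b) ≤ n * (Real.log 2 + Real.log H) :=
          mul_le_mul_of_nonneg_left hlog2 (by positivity)
        nlinarith

end Pool.Agent.TH585.VF
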