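import Mathlib

/-!
# Maximal minors of matrices with the same column space
-/

set_option autoImplicit false

namespace Pool.Agent.TH585.VF

open Finset

/-- two families of `n` independent vectors in the kernel of `s` independent linear forms in
`n + s` variables have proportional vectors of maximal minors -/
theorem plucker {ν n s : ℕ} (hν : ν = n + s) (R : Matrix (Fin s) (Fin ν) ℚ)
    (hR : LinearIndependent ℚ R.row) (A B : Matrix (Fin ν) (Fin n) ℤ)
    (hA : ∀ y : Fin n → ℚ, (∀ j, ∑ c, (A j c : ℚ) * y c = 0) → y = 0)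
    (hB : ∀ y : Fin n → ℚ, (∀ j, ∑ c, (B j c : ℚ) * y c = 0) → y = 0)
    (hRA : ∀ a c, ∑ j, R a j * (A j c : ℚ) = 0) (hRB : ∀ a c, ∑ j, R a j * (B j c : ℚ) = 0) :
    ∃ α β : ℤ, α ≠ 0 ∧ β ≠ 0 ∧ ∀ J : Fin n → Fin ν,
      β * (A.submatrix J id).det = α * (B.submatrix J id).det := by
  classical
  have hrank : R.rank = s := by
    rw [hR.rank_matrix, Fintype.card_fin]
  have hker : Module.finrank ℚ (LinearMap.ker R.mulVecLin) = n := by
    have h1 := LinearMap.finrank_range_add_finrank_ker R.mulVecLin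
    have h2 : Module.finrank ℚ (LinearMap.range R.mulVecLin) = s := hrank
    rw [h2, Module.finrank_fin_fun] at h1
    omega
  have hmem : ∀ (M : Matrix (Fin ν) (Fin n) ℤ), (∀ a c, ∑ j, R a j * (M j c : ℚ) = 0) →
      ∀ c, (fun j => (M j c : ℚ)) ∈ LinearMap.ker R.mulVecLin := by
    intro M hM c
    rw [LinearMap.mem_ker, Matrix.mulVecLin_apply]
    funext a
    exact hM a c
  let bB : Fin n → LinearMap.ker R.mulVecLin := fun c => ⟨fun j => (B j c : ℚ), hmem B hRB c⟩
  have hbB : LinearIndependent ℚ bB := by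
    rw [Fintype.linearIndependent_iff]
    intro y hy
    have h1 := hB y (by
      intro j
      have h2 := congrFun (congrArg Subtype.val hy) j
      rw [AddSubmonoidClass.coe_finsetSum, Finset.sum_apply] at h2
      simp only [ZeroMemClass.coe_zero, Pi.zero_apply] at h2
      rw [← h2]
      refine Finset.sum_congr rfl fun c _ => ?_
      simp only [bB, SetLike.val_smul, Pi.smul_apply, smul_eq_mul]
      ring)
    exact fun i => congrFun h1 i
  have hspan := hbB.span_eq_top_of_card_eq_finrank' (by rw [hker, Fintype.card_fin])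
  have hQ : ∀ c, ∃ y : Fin n → ℚ, ∀ j, (A j c : ℚ) = ∑ k, (B j k : ℚ) * y k := by
    intro c
    have h1 : (⟨fun j => (A j c : ℚ), hmem A hRA c⟩ : LinearMap.ker R.mulVecLin) ∈
        Submodule.span ℚ (Set.range bB) := by
      rw [hspan]
      exact Submodule.mem_top
    rw [Submodule.mem_span_range_iff_exists_fun] at h1
    obtain ⟨y, hy⟩ := h1
    refine ⟨y, fun j => ?_⟩
    have h2 := congrFun (congrArg Subtype.val hy) j
    rw [AddSubmonoidClass.coe_finsetSum, Finset.sum_apply] at h2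
    simp only at h2
    rw [← h2]
    refine Finset.sum_congr rfl fun c _ => ?_
    simp only [bB, SetLike.val_smul, Pi.smul_apply, smul_eq_mul]
    ring
  choose Q hQ using hQ
  let QM : Matrix (Fin n) (Fin n) ℚ := Matrix.of fun k c => Q c k
  have hmul : ∀ J : Fin n → Fin ν, (((A.submatrix J id).det : ℤ) : ℚ) =
      (((B.submatrix J id).det : ℤ) : ℚ) * QM.det := by
    intro J
    have h1 : ((A.submatrix J id).map (Int.castRingHom ℚ)) =
        ((B.submatrix J id).map (Int.castRingHom ℚ)) * QM := by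
      ext1 i c
      rw [Matrix.map_apply, Matrix.mul_apply, Matrix.submatrix_apply]
      exact hQ c (J i)
    have h2 := congrArg Matrix.det h1
    rw [Matrix.det_mul] at h2
    have h3 : ∀ M : Matrix (Fin n) (Fin n) ℤ, (M.map (Int.castRingHom ℚ)).det =
        ((M.det : ℤ) : ℚ) := by
      intro M
      have := (RingHom.map_det (Int.castRingHom ℚ) M).symm
      exact this
    rw [h3, h3] at h2
    exact h2
  have hQ0 : QM.det ≠ 0 := by
    intro h0
    obtain ⟨y, hy0, hy⟩ := Matrix.exists_mulVec_eq_zero_iff.2 h0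
    apply hy0
    apply hA
    intro j
    have h1 : ∀ c, (A j c : ℚ) * y c = ∑ k, (B j k : ℚ) * (QM k c * y c) := by
      intro c
      rw [hQ c j, Finset.sum_mul]
      exact Finset.sum_congr rfl fun k _ => by
        simp only [QM, Matrix.of_apply]
        ring
    rw [Finset.sum_congr rfl fun c _ => h1 c, Finset.sum_comm]
    apply Finset.sum_eq_zero
    intro k _
    rw [← Finset.mul_sum]
    have h2 := congrFun hy k
    simp only [Matrix.mulVec, dotProduct, Pi.zero_apply] at h2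
    rw [h2, mul_zero]
  refine ⟨QM.det.num, QM.det.den, Rat.num_ne_zero.2 hQ0, by
    exact_mod_cast QM.det.den_nz, fun J => ?_⟩
  have h1 := hmul J
  have h2 : QM.det = (QM.det.num : ℚ) / (QM.det.den : ℚ) := (Rat.num_div_den _).symm
  have h3 : (QM.det.den : ℚ) ≠ 0 := by exact_mod_cast QM.det.den_nz
  rw [h2] at h1
  field_simp at h1
  have h4 : ((QM.det.den : ℤ) : ℚ) * (((A.submatrix J id).det : ℤ) : ℚ) =
      ((QM.det.num : ℤ) : ℚ) * (((B.submatrix J id).det : ℤ) : ℚ) := by
    rw [Int.cast_natCast, mul_comm, h1, mul_comm]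
  exact_mod_cast h4

/-- ratio of the maximal absolute value and the greatest common divisor -/
noncomputable def ratio {ι : Type} [Fintype ι] (f : ι → ℤ) : ℝ :=
  ((univ.sup (fun J => (f J).natAbs) : ℕ) : ℝ) / ((univ.gcd f : ℤ) : ℝ)

theorem sup_mul {ι : Type} [Fintype ι] [Nonempty ι] (f : ι → ℤ) (β : ℤ) :
    univ.sup (fun J => (β * f J).natAbs) = β.natAbs * univ.sup (fun J => (f J).natAbs) := by
  classical
  apply le_antisymm
  · refine Finset.sup_le fun J _ => ?_
    rw [Int.natAbs_mul]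
    exact Nat.mul_le_mul_left _ (Finset.le_sup (f := fun J => (f J).natAbs) (mem_univ J))
  · obtain ⟨J, _, hJ⟩ := Finset.exists_mem_eq_sup univ univ_nonempty (fun J => (f J).natAbs)
    rw [hJ, ← Int.natAbs_mul]
    exact Finset.le_sup (f := fun J => (β * f J).natAbs) (mem_univ J)

theorem ratio_mul {ι : Type} [Fintype ι] [Nonempty ι] (f : ι → ℤ) (β : ℤ) (hβ : β ≠ 0) :
    ratio (fun J => β * f J) = ratio f := by
  classical
  unfold ratio
  rw [sup_mul, Finset.gcd_mul_left]
  have h1 : ((normalize β : ℤ) : ℝ) = (β.natAbs : ℝ) := by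
    rw [← Int.abs_eq_normalize, Int.abs_eq_natAbs, Int.cast_natCast]
  rw [Nat.cast_mul, Int.cast_mul, h1]
  have h2 : (β.natAbs : ℝ) ≠ 0 := by
    have : β.natAbs ≠ 0 := Int.natAbs_ne_zero.2 hβ
    exact_mod_cast this
  rw [mul_div_mul_left _ _ h2]

theorem ratio_eq {ι : Type} [Fintype ι] [Nonempty ι] (f g : ι → ℤ) (α β : ℤ) (hα : α ≠ 0)
    (hβ : β ≠ 0) (h : ∀ J, β * f J = α * g J) : ratio f = ratio g := by
  rw [← ratio_mul f β hβ, ← ratio_mul g α hα]
  congr 1
  funext J
  exact h J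

/-- an upper bound for the ratio -/
theorem ratio_le {ι : Type} [Fintype ι] [Nonempty ι] (f : ι → ℤ) (U : ℝ) (T : ℕ)
    (hT : 0 < T) (h0 : ∃ J, f J ≠ 0) (hU : ∀ J, |(f J : ℝ)| ≤ U) (hdvd : ∀ J, (T : ℤ) ∣ f J) :
    0 < ratio f ∧ ratio f ≤ U / T := by
  classical
  obtain ⟨J0, hJ0⟩ := h0
  obtain ⟨J, _, hJ⟩ := Finset.exists_mem_eq_sup univ univ_nonempty (fun J => (f J).natAbs)
  have hsup : ((univ.sup (fun J => (f J).natAbs) : ℕ) : ℝ) ≤ U := by
    rw [hJ]
    have := hU J
    rw [← Int.cast_abs, Int.abs_eq_natAbs, Int.cast_natCast] at this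
    exact this
  have hsup0 : 0 < univ.sup (fun J => (f J).natAbs) := by
    have h1 := Finset.le_sup (f := fun J => (f J).natAbs) (mem_univ J0)
    have h2 : 0 < (f J0).natAbs := Int.natAbs_pos.2 hJ0
    exact lt_of_lt_of_le h2 h1
  have hg : (T : ℤ) ∣ univ.gcd f := Finset.dvd_gcd fun J _ => hdvd J
  have hgne : univ.gcd f ≠ 0 := by
    intro h1
    rw [Finset.gcd_eq_zero_iff] at h1
    exact hJ0 (h1 J0 (mem_univ _))
  have hgnn : 0 ≤ univ.gcd f := by
    have := Finset.normalize_gcd (s := univ) (f := f)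
    rw [← Int.abs_eq_normalize] at this
    rw [← this]
    exact abs_nonneg _
  have hgpos : 0 < univ.gcd f := lt_of_le_of_ne hgnn (Ne.symm hgne)
  have hTg : (T : ℤ) ≤ univ.gcd f := Int.le_of_dvd hgpos hg
  have hTR : (0 : ℝ) < T := by exact_mod_cast hT
  have hTgR : (T : ℝ) ≤ ((univ.gcd f : ℤ) : ℝ) := by exact_mod_cast hTg
  have hs0 : (0 : ℝ) < ((univ.sup (fun J => (f J).natAbs) : ℕ) : ℝ) := by exact_mod_cast hsup0
  unfold ratio
  refine ⟨div_pos hs0 (lt_of_lt_of_le hTR hTgR), ?_⟩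
  exact div_le_div₀ (hs0.le.trans hsup) hsup hTR hTgR

end Pool.Agent.TH585.VF
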