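import Mathlib
import Pool.Agent.TH585.VF.Rev

/-!
# Divisibility of the maximal minors of a matrix by powers of the variable
-/

set_option autoImplicit false

namespace Pool.Agent.TH585.VF

open Finset Polynomial

theorem local_minor {ν n s : ℕ} (hν : ν = n + s) {ι : Type} [Fintype ι]
    (g : Fin s → Fin ν → ℤ[X]) (u : ι → Fin ν → ℤ[X])
    (h : ∀ (κ : Fin s → ℤ) (μ : ι → ℤ), (∀ j, ∑ a, κ a * (g a j).coeff 0 +
      ∑ i, μ i * (u i j).coeff 0 = 0) → κ = 0 ∧ μ = 0)
    (M : Matrix (Fin ν) (Fin n) ℤ[X]) (t : ι → ℕ) (L : ℕ) (hL : ∀ i, t i ≤ L)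
    (hg : ∀ a c, X ^ L ∣ ∑ j, g a j * M j c) (hu : ∀ i c, X ^ t i ∣ ∑ j, u i j * M j c)
    (J : Fin n → Fin ν) : X ^ (∑ i, t i) ∣ (M.submatrix J id).det := by
  classical
  by_cases hJ : Function.Injective J
  swap
  · rw [Function.not_injective_iff] at hJ
    obtain ⟨a, b, hab, hne⟩ := hJ
    have h0 : (M.submatrix J id).det = 0 := by
      refine Matrix.det_zero_of_row_eq hne ?_
      funext k
      rw [Matrix.submatrix_apply, Matrix.submatrix_apply, hab]
    rw [h0]
    exact dvd_zero _
  let e1 : Fin n ≃ Set.range J := Equiv.ofInjective J hJ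
  have hcard : Fintype.card ↥(Set.range J)ᶜ = s := by
    rw [Fintype.card_compl_set, Fintype.card_fin, Set.card_range_of_injective hJ,
      Fintype.card_fin]
    omega
  let e2 : Fin s ≃ ↥(Set.range J)ᶜ := (Fintype.equivFinOfCardEq hcard).symm
  let σ : Fin n ⊕ Fin s ≃ Fin ν := (Equiv.sumCongr e1 e2).trans (Equiv.Set.sumCompl (Set.range J))
  have hσ1 : ∀ i, σ (Sum.inl i) = J i := fun i => rfl
  let M2 : Matrix (Fin ν) (Fin ν) ℤ[X] := fun j c =>
    Sum.elim (fun k => M j k) (fun a => if j = σ (Sum.inr a) then X ^ L else 0) (σ.symm c)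
  have hM2l : ∀ j k, M2 j (σ (Sum.inl k)) = M j k := by
    intro j k
    simp only [M2]
    rw [Equiv.symm_apply_apply, Sum.elim_inl]
  have hM2r : ∀ j a, M2 j (σ (Sum.inr a)) = if j = σ (Sum.inr a) then X ^ L else 0 := by
    intro j a
    simp only [M2]
    rw [Equiv.symm_apply_apply, Sum.elim_inr]
  have hblock : M2.submatrix σ σ = Matrix.fromBlocks (M.submatrix J id) 0
      (Matrix.of fun a k => M (σ (Sum.inr a)) k) (Matrix.diagonal fun _ : Fin s => X ^ L) := by
    ext1 x y
    rw [Matrix.submatrix_apply]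
    rcases x with i | a
    · rcases y with k | a'
      · rw [hM2l, Matrix.fromBlocks_apply₁₁, Matrix.submatrix_apply, hσ1]
        rfl
      · rw [hM2r, Matrix.fromBlocks_apply₁₂, if_neg, Matrix.zero_apply]
        intro h0
        have := σ.injective h0
        cases this
    · rcases y with k | a'
      · rw [hM2l, Matrix.fromBlocks_apply₂₁, Matrix.of_apply]
      · rw [hM2r, Matrix.fromBlocks_apply₂₂, Matrix.diagonal_apply]
        by_cases haa : a = a'
        · rw [if_pos (by rw [haa]), if_pos haa]
        · rw [if_neg, if_neg haa]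
          intro h0
          exact haa (Sum.inr_injective (σ.injective h0))
  have hdet : M2.det = (M.submatrix J id).det * X ^ (L * s) := by
    rw [← Matrix.det_submatrix_equiv_self σ M2, hblock, Matrix.det_fromBlocks_zero₁₂,
      Matrix.det_diagonal, Finset.prod_const, Finset.card_univ, Fintype.card_fin, ← pow_mul]
  have hdiv := local_div' (ι := Fin s ⊕ ι) (Sum.elim g u) (by
    intro κ hκ
    have h1 := h (fun a => κ (Sum.inl a)) (fun i => κ (Sum.inr i)) (by
      intro j
      have h2 := hκ j
      rw [Fintype.sum_sum_type] at h2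
      exact h2)
    funext x
    rcases x with a | i
    · exact congrFun h1.1 a
    · exact congrFun h1.2 i) M2 (Sum.elim (fun _ => L) t) (by
    intro x c
    obtain ⟨y, rfl⟩ := σ.surjective c
    rcases y with k | a'
    · simp only [hM2l]
      rcases x with a | i
      · exact hg a k
      · exact hu i k
    · simp only [hM2r]
      have h1 : ∀ v : Fin ν → ℤ[X], ∑ j, v j * (if j = σ (Sum.inr a') then X ^ L else 0) =
          v (σ (Sum.inr a')) * X ^ L := by
        intro v
        rw [Finset.sum_eq_single (σ (Sum.inr a'))]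
        · rw [if_pos rfl]
        · intro j _ hj
          rw [if_neg hj, mul_zero]
        · intro h0
          exact absurd (mem_univ _) h0
      rw [h1]
      rcases x with a | i
      · exact dvd_mul_left _ _
      · exact ((pow_dvd_pow _ (hL i)).mul_left _))
  rw [hdet, Fintype.sum_sum_type] at hdiv
  simp only [Sum.elim_inl, Sum.elim_inr, Finset.sum_const, Finset.card_univ, Fintype.card_fin,
    smul_eq_mul] at hdiv
  rw [pow_add, mul_comm s L, mul_comm (X ^ (L * s))] at hdiv
  exact (mul_dvd_mul_iff_right (pow_ne_zero _ X_ne_zero)).1 hdiv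

end Pool.Agent.TH585.VF
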