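import Mathlib
import Pool.Agent.TH585.VF.Minor

/-!
# The local inequality on a variety
-/

set_option autoImplicit false

namespace Pool.Agent.TH585.VF

open Finset MvPolynomial Pool.Agent.H458.Sp
open Pool.Agent.H531R2 (Eul wt)

variable {r n ν s : ℕ}

/-- smoothness of the variety `G = 0` (of codimension `s`) and normal crossings of the divisors
`F i = 0` at its integral points -/
def NCInt {g q w : ℕ} (s : ℕ) (G : Fin g → MvPolynomial (Fin ν) ℤ)
    (F : Fin q → Fin w → MvPolynomial (Fin ν) ℤ) : Prop :=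
  ∀ z : Fin ν → ℤ, z ≠ 0 → (∀ k, eval z (G k) = 0) →
    ∃ (K : Fin s → Fin g) (jj : Fin q → Fin w), ∀ (κ : Fin s → ℤ) (μ : Fin q → ℤ),
      (∀ i, μ i ≠ 0 → ∀ j, eval z (F i j) = 0) →
      (∀ y, ∑ a, κ a * eval z (pderiv y (G (K a))) +
        ∑ i, μ i * eval z (pderiv y (F i (jj i))) = 0) → κ = 0 ∧ μ = 0

/-- **The local inequality** at the point `0` of the line, for a curve on a variety. -/
theorem local_ineqX (hν : ν = n + s) (b : ℤ) (m l : Fin r → ℕ) (c : Fin ν → Fin r → ℤ)
    (a : Fin n → Fin r → ℕ) (D : ℕ) (hD : 1 ≤ D) (hcomp : ∀ k, Comp D l (a k)) {g q w : ℕ}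
    (G : Fin g → MvPolynomial (Fin ν) ℤ) (e : Fin g → ℕ) (hG : ∀ k, (G k).IsHomogeneous (e k))
    (heD : ∀ k, e k ≤ D)
    (F : Fin q → Fin w → MvPolynomial (Fin ν) ℤ) (d : Fin q → Fin w → ℕ)
    (hF : ∀ i j, (F i j).IsHomogeneous (d i j)) (hdD : ∀ i j, d i j ≤ D)
    (hnc : NCInt s G F)
    (hG0 : ∀ k, sub b m l (bind₁ (fun i => li (c i)) (G k)) = 0)
    (ω : ℕ) (hω : ∀ i, (Polynomial.X : Polynomial ℤ) ^ ω ∣ sub b m l (li (c i)))
    (hω' : ∃ i, ¬ (Polynomial.X : Polynomial ℤ) ^ (ω + 1) ∣ sub b m l (li (c i)))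
    (t : Fin q → ℕ)
    (ht : ∀ i j, (Polynomial.X : Polynomial ℤ) ^ (d i j * ω + t i) ∣
      sub b m l (bind₁ (fun i => li (c i)) (F i j))) (J : Fin n → Fin ν) :
    (Polynomial.X : Polynomial ℤ) ^ (n * ω + ∑ i, t i) ∣
      sub b m l (jac (fun i => c (J i)) a) := by
  classical
  choose g hg using hω
  set z : Fin ν → ℤ := fun i => (g i).coeff 0 with hz
  have hz0 : z ≠ 0 := by
    obtain ⟨i0, hi0⟩ := hω'
    intro h0
    apply hi0
    have h1 : (g i0).coeff 0 = 0 := congrFun h0 i0
    rw [hg i0, pow_succ]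
    exact mul_dvd_mul_left _ (Polynomial.X_dvd_iff.2 h1)
  have hM : ∀ j k, (Polynomial.X : Polynomial ℤ) ^ ω ∣ sub b m l (Eul (a k) (li (c j))) := by
    intro j k
    exact dvd_sub_Eul b m l (a k) D 1 hD _ (li_homog _) (hcomp k) ω ⟨g j, hg j⟩
  choose M' hM' using hM
  have hγ : (fun i => (Polynomial.X : Polynomial ℤ) ^ ω * g i) =
      fun i => sub b m l (li (c i)) := funext fun i => (hg i).symm
  have haev : ∀ P : MvPolynomial (Fin ν) ℤ, sub b m l (bind₁ (fun i => li (c i)) P) =
      aeval (fun i => (Polynomial.X : Polynomial ℤ) ^ ω * g i) P := by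
    intro P
    rw [hγ]
    unfold sub
    rw [aeval_bind₁]
  have hXne : ∀ k : ℕ, (Polynomial.X : Polynomial ℤ) ^ k ≠ 0 :=
    fun k => pow_ne_zero _ Polynomial.X_ne_zero
  -- vanishing at `z`
  have hvan : ∀ i, 0 < t i → ∀ j, eval z (F i j) = 0 := by
    intro i hi j
    have h1 := ht i j
    rw [haev, aeval_smul_homog' (F i j) (hF i j), ← pow_mul, mul_comm ω, pow_add] at h1
    have h2 := (mul_dvd_mul_iff_left (hXne _)).1 h1
    have h3 : (Polynomial.X : Polynomial ℤ) ∣ aeval g (F i j) :=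
      (dvd_pow_self _ hi.ne').trans h2
    rw [Polynomial.X_dvd_iff, coeff_zero_aeval] at h3
    exact h3
  have hzG : ∀ k, eval z (G k) = 0 := by
    intro k
    have h1 := hG0 k
    rw [haev, aeval_smul_homog' (G k) (hG k)] at h1
    have h2 : aeval g (G k) = 0 := by
      rcases mul_eq_zero.1 h1 with h2 | h2
      · rw [← pow_mul] at h2
        exact absurd h2 (hXne _)
      · exact h2
    rw [← coeff_zero_aeval, h2, Polynomial.coeff_zero]
  -- the rows
  have hrow : ∀ (P : MvPolynomial (Fin ν) ℤ) (f τ : ℕ), P.IsHomogeneous f → f ≤ D →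
      (Polynomial.X : Polynomial ℤ) ^ (f * ω + τ) ∣ sub b m l (bind₁ (fun i => li (c i)) P) →
      ∀ k, (Polynomial.X : Polynomial ℤ) ^ τ ∣ ∑ j, aeval g (pderiv j P) * M' j k := by
    intro P f τ hP hfD hdiv k
    rcases Nat.eq_zero_or_pos f with h0 | h0
    · have h1 : ∀ j, pderiv j P = 0 := by
        intro j
        have h2 := hP
        rw [h0, ← totalDegree_zero_iff_isHomogeneous, totalDegree_eq_zero_iff_eq_C] at h2
        rw [h2, pderiv_C]
      have h2 : ∑ j, aeval g (pderiv j P) * M' j k = 0 := by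
        apply Finset.sum_eq_zero
        intro j _
        rw [h1, map_zero, zero_mul]
      rw [h2]
      exact dvd_zero _
    · have h1 := dvd_sub_Eul b m l (a k) D f hfD _ (bind_homog c P hP) (hcomp k) _ hdiv
      have h2 : Eul (a k) (bind₁ (fun i => li (c i)) P) =
          ∑ j, bind₁ (fun i => li (c i)) (pderiv j P) * Eul (a k) (li (c j)) :=
        deriv_aeval_int (Eul (a k)) (fun i => li (c i)) P
      rw [h2, map_sum] at h1
      have h3 : ∀ j, sub b m l (bind₁ (fun i => li (c i)) (pderiv j P) *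
          Eul (a k) (li (c j))) = (Polynomial.X : Polynomial ℤ) ^ (f * ω) *
            (aeval g (pderiv j P) * M' j k) := by
        intro j
        rw [map_mul, haev, aeval_smul_homog' (pderiv j P) (hP.pderiv), hM' j k, ← pow_mul]
        have h4 : f * ω = ω * (f - 1) + ω := by
          obtain ⟨e, he⟩ : ∃ e, f = e + 1 := ⟨f - 1, by omega⟩
          rw [he, Nat.add_sub_cancel]
          ring
        rw [h4, pow_add]
        ring
      rw [Finset.sum_congr rfl fun j _ => h3 j, ← Finset.mul_sum, pow_add] at h1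
      exact (mul_dvd_mul_iff_left (hXne _)).1 h1
  obtain ⟨K, jj, hind⟩ := hnc z hz0 hzG
  set L : ℕ := ∑ i, t i with hL
  have htL : ∀ i, t i ≤ L := fun i =>
    Finset.single_le_sum (f := t) (fun _ _ => Nat.zero_le _) (mem_univ i)
  let ι := {i : Fin q // 0 < t i}
  let u : ι → Fin ν → Polynomial ℤ := fun i j => aeval g (pderiv j (F i.1 (jj i.1)))
  let v : Fin s → Fin ν → Polynomial ℤ := fun k j => aeval g (pderiv j (G (K k)))
  have hu : ∀ i j, (u i j).coeff 0 = eval z (pderiv j (F i.1 (jj i.1))) :=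
    fun i j => coeff_zero_aeval g _
  have hv : ∀ i j, (v i j).coeff 0 = eval z (pderiv j (G (K i))) :=
    fun i j => coeff_zero_aeval g _
  have hdiv := local_minor hν v u (by
    intro κ μ hκμ
    have h1 := hind κ (fun i => if hi : 0 < t i then μ ⟨i, hi⟩ else 0) (by
      intro i hi
      by_cases h2 : 0 < t i
      · exact hvan i h2
      · simp only [dif_neg h2] at hi
        exact absurd rfl hi) (by
      intro y
      refine Eq.trans ?_ (hκμ y)
      congr 1
      · exact Finset.sum_congr rfl fun a _ => by rw [hv]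
      · rw [← sum_sub (fun i => 0 < t i)]
        · refine Finset.sum_congr rfl fun i _ => ?_
          rw [hu, dif_pos i.2]
        · intro i hi
          rw [dif_neg hi, zero_mul])
    refine ⟨h1.1, ?_⟩
    funext i
    have := congrFun h1.2 i.1
    simp only [dif_pos i.2] at this
    exact this) (Matrix.of M') (fun i => t i.1) L (fun i => htL i.1) (by
    intro k k'
    exact hrow (G (K k)) (e (K k)) L (hG _) (heD _) (by rw [hG0]; exact dvd_zero _) k') (by
    intro i k
    exact hrow (F i.1 (jj i.1)) (d i.1 (jj i.1)) (t i.1) (hF _ _) (hdD _ _) (ht _ _) k) J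
  have hsum : ∑ i : ι, t i.1 = ∑ i, t i := by
    apply sum_sub (fun i => 0 < t i)
    intro i hi
    omega
  rw [hsum] at hdiv
  have hdet : sub b m l (jac (fun i => c (J i)) a) = (Polynomial.X : Polynomial ℤ) ^ (n * ω) *
      ((Matrix.of M').submatrix J id).det := by
    have h1 : sub b m l (jac (fun i => c (J i)) a) =
        ((Polynomial.X : Polynomial ℤ) ^ ω • (Matrix.of M').submatrix J id).det := by
      unfold jac
      rw [AlgHom.map_det]
      congr 1
      ext1 j k
      rw [AlgHom.mapMatrix_apply, Matrix.map_apply, Matrix.of_apply, hM' (J j) k,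
        Matrix.smul_apply, Matrix.submatrix_apply, Matrix.of_apply, smul_eq_mul]
      rfl
    rw [h1, Matrix.det_smul, Fintype.card_fin, ← pow_mul, mul_comm ω]
  rw [hdet, pow_add]
  exact mul_dvd_mul_left _ hdiv

end Pool.Agent.TH585.VF
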