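import Mathlib
import Pool.Agent.TH585.VF.DerX

/-!
# The local inequalities at `0` and at infinity on a variety
-/

set_option autoImplicit false

namespace Pool.Agent.TH585.VF

open Finset MvPolynomial Pool.Agent.H458.Sp
open Pool.Agent.H531R2 (Eul wt)

variable {r n ν s : ℕ}

theorem sub_rev_eq_zero (b : ℤ) (m l : Fin r → ℕ) (Λ : ℕ) (hΛ : ∀ j, l j ≤ Λ) (k : ℕ)
    (G : MvPolynomial (Fin r) ℤ) (hG : G.IsHomogeneous k) (h0 : sub b m l G = 0) :
    sub b m (fun j => Λ - l j) G = 0 := by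
  ext w
  rw [Polynomial.coeff_zero]
  by_cases hw : w ≤ k * Λ
  · have h1 := sub_rev_coeff b m l Λ hΛ k G hG (k * Λ - w) (Nat.sub_le _ _)
    have h2 : k * Λ - (k * Λ - w) = w := by omega
    rw [h2, h0, Polynomial.coeff_zero] at h1
    exact h1
  · apply Polynomial.coeff_eq_zero_of_natDegree_lt
    have := sub_natDegree_le b m (fun j => Λ - l j) Λ (fun j => Nat.sub_le _ _) k G hG
    omega

theorem comb_ineqX (hν : ν = n + s) (b : ℤ) (m l : Fin r → ℕ) (c : Fin ν → Fin r → ℤ)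
    (a : Fin n → Fin r → ℕ) (D : ℕ) (hD : 1 ≤ D) (hcomp : ∀ k, Comp D l (a k)) {g q w : ℕ}
    (G : Fin g → MvPolynomial (Fin ν) ℤ) (e : Fin g → ℕ) (hG : ∀ k, (G k).IsHomogeneous (e k))
    (heD : ∀ k, e k ≤ D)
    (F : Fin q → Fin w → MvPolynomial (Fin ν) ℤ) (d : Fin q → Fin w → ℕ)
    (hF : ∀ i j, (F i j).IsHomogeneous (d i j)) (hdD : ∀ i j, d i j ≤ D)
    (hnc : NCInt s G F)
    (hG0 : ∀ k, sub b m l (bind₁ (fun i => li (c i)) (G k)) = 0)
    (hprim : ∃ i, ¬ (Polynomial.X : Polynomial ℤ) ∣ sub b m l (li (c i)))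
    (δ : ℕ) (hδ : ∀ i, (sub b m l (li (c i))).natDegree ≤ δ)
    (hδ' : ∃ i, sub b m l (li (c i)) ≠ 0 ∧ (sub b m l (li (c i))).natDegree = δ)
    (tr dd : Fin q → ℕ)
    (htr : ∀ i j, (Polynomial.X : Polynomial ℤ) ^ (tr i) ∣
      sub b m l (bind₁ (fun i => li (c i)) (F i j)))
    (hdd : ∀ i j, sub b m l (bind₁ (fun i => li (c i)) (F i j)) ≠ 0 →
      (sub b m l (bind₁ (fun i => li (c i)) (F i j))).natDegree + dd i ≤ d i j * δ)
    (J : Fin n → Fin ν) :
    (Polynomial.X : Polynomial ℤ) ^ (∑ i, tr i) ∣ sub b m l (jac (fun i => c (J i)) a) ∧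
      (sub b m l (jac (fun i => c (J i)) a) ≠ 0 →
        (sub b m l (jac (fun i => c (J i)) a)).natDegree + ∑ i, dd i ≤ n * δ) := by
  classical
  refine ⟨?_, fun hjac => ?_⟩
  · have h1 := local_ineqX hν b m l c a D hD hcomp G e hG heD F d hF hdD hnc hG0 0
      (fun i => by rw [pow_zero]; exact one_dvd _)
      (by simpa using hprim) tr (fun i j => by
        rw [mul_zero, zero_add]
        exact htr i j) J
    rwa [mul_zero, zero_add] at h1
  -- the point at infinity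
  obtain ⟨Λ, hΛ⟩ : ∃ Λ, ∀ j, l j ≤ Λ :=
    ⟨∑ j, l j, fun j => Finset.single_le_sum (f := l) (fun _ _ => Nat.zero_le _) (mem_univ j)⟩
  have hδΛ : δ ≤ Λ := by
    obtain ⟨i, _, hi⟩ := hδ'
    have := sub_natDegree_le b m l Λ hΛ 1 _ (li_homog (c i))
    omega
  have hω : ∀ i, (Polynomial.X : Polynomial ℤ) ^ (Λ - δ) ∣
      sub b m (fun j => Λ - l j) (li (c i)) := by
    intro i
    have := rev_dvd b m l Λ hΛ 1 _ (li_homog (c i)) δ (hδ i)
    rwa [one_mul] at this
  have hinf := local_ineqX hν b m (fun j => Λ - l j) c a D hD (fun k => (hcomp k).rev Λ hΛ)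
    G e hG heD F d hF hdD hnc
    (fun k => sub_rev_eq_zero b m l Λ hΛ (e k) _ (bind_homog c (G k) (hG k)) (hG0 k))
    (Λ - δ) hω (by
      obtain ⟨i, hi0, hi⟩ := hδ'
      refine ⟨i, fun hcon => ?_⟩
      have h1 := rev_le b m l Λ hΛ 1 _ (li_homog (c i)) hi0 _ hcon
      rw [hi] at h1
      omega) dd (fun i j => by
      by_cases h0 : sub b m l (bind₁ (fun i => li (c i)) (F i j)) = 0
      · rw [sub_rev_eq_zero b m l Λ hΛ (d i j) _ (bind_homog c (F i j) (hF i j)) h0]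
        exact dvd_zero _
      · have h1 := hdd i j h0
        have h2 := rev_dvd b m l Λ hΛ (d i j) _ (bind_homog c (F i j) (hF i j))
          (d i j * δ - dd i) (by omega)
        have h3 : d i j * (Λ - δ) + d i j * δ = d i j * Λ := by
          rw [← Nat.mul_add, Nat.sub_add_cancel hδΛ]
        have h4 : d i j * (Λ - δ) + dd i = d i j * Λ - (d i j * δ - dd i) := by
          omega
        rw [h4]
        exact h2) J
  have h1 := rev_le b m l Λ hΛ n _ (jac_homog (fun i => c (J i)) a) hjac _ hinf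
  have h2 : n * (Λ - δ) + n * δ = n * Λ := by
    rw [← Nat.mul_add, Nat.sub_add_cancel hδΛ]
  omega

end Pool.Agent.TH585.VF
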