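import Mathlib
import Pool.Agent.TH585.VF.Fin
import Pool.Agent.TH585.VF.RevX
import Pool.Agent.TH585.VF.Plu

/-!
# Sizes on a variety: from the local inequalities to the inequality of heights
-/

set_option autoImplicit false

namespace Pool.Agent.TH585.VF

open Finset MvPolynomial Pool.Agent.H458.Sp
open Pool.Agent.H531R2 (Eul wt)

variable {r n ν s : ℕ}

/-- local height at infinity of the subscheme `F j = 0`, `j < w` -/
noncomputable def locInf {w : ℕ} (F : Fin w → MvPolynomial (Fin ν) ℤ) (d : Fin w → ℕ) (H : ℕ)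
    (x : Fin ν → ℤ) : ℝ :=
  -Real.log (⨆ j, |((eval x (F j) : ℤ) : ℝ)| / (H : ℝ) ^ d j)

/-- local height at `p` of the subscheme `F j = 0`, `j < w` -/
noncomputable def locP {w : ℕ} (F : Fin w → MvPolynomial (Fin ν) ℤ) (p : ℕ) (x : Fin ν → ℤ) : ℝ :=
  -Real.log (⨆ j, ((padicNorm p ((eval x (F j) : ℤ) : ℚ) : ℚ) : ℝ))

theorem locInf_le {w : ℕ} (F : Fin w → MvPolynomial (Fin ν) ℤ) (d : Fin w → ℕ) (H : ℕ)
    (x : Fin ν → ℤ) (hH : 0 < H) (j : Fin w) (hj : eval x (F j) ≠ 0) :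
    locInf F d H x ≤ d j * Real.log H - Real.log |((eval x (F j) : ℤ) : ℝ)| := by
  have hHR : (0 : ℝ) < H := by exact_mod_cast hH
  have hF0 : (0 : ℝ) < |((eval x (F j) : ℤ) : ℝ)| := abs_pos.2 (by exact_mod_cast hj)
  have h1 : |((eval x (F j) : ℤ) : ℝ)| / (H : ℝ) ^ d j ≤
      ⨆ j, |((eval x (F j) : ℤ) : ℝ)| / (H : ℝ) ^ d j :=
    le_ciSup (f := fun j => |((eval x (F j) : ℤ) : ℝ)| / (H : ℝ) ^ d j)
      (Set.finite_range _).bddAbove j
  have h2 := Real.log_le_log (div_pos hF0 (pow_pos hHR _)) h1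
  rw [Real.log_div hF0.ne' (pow_pos hHR _).ne', Real.log_pow] at h2
  unfold locInf
  linarith

theorem locP_le {w : ℕ} (F : Fin w → MvPolynomial (Fin ν) ℤ) (p : ℕ) (hp : p.Prime)
    (x : Fin ν → ℤ) (j : Fin w) (hj : eval x (F j) ≠ 0) :
    locP F p x ≤ (padicValInt p (eval x (F j)) : ℝ) * Real.log p := by
  have : Fact p.Prime := ⟨hp⟩
  have hjq : ((eval x (F j) : ℤ) : ℚ) ≠ 0 := by exact_mod_cast hj
  have hpR : (0 : ℝ) < p := by exact_mod_cast hp.pos
  have hval : ((padicNorm p ((eval x (F j) : ℤ) : ℚ) : ℚ) : ℝ) =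
      (p : ℝ) ^ (-(padicValInt p (eval x (F j)) : ℤ)) := by
    rw [padicNorm.eq_zpow_of_nonzero hjq, padicValRat.of_int]
    push_cast
    rfl
  have h1 : ((padicNorm p ((eval x (F j) : ℤ) : ℚ) : ℚ) : ℝ) ≤
      ⨆ j, ((padicNorm p ((eval x (F j) : ℤ) : ℚ) : ℚ) : ℝ) :=
    le_ciSup (f := fun j => ((padicNorm p ((eval x (F j) : ℤ) : ℚ) : ℚ) : ℝ))
      (Set.finite_range _).bddAbove j
  have h0 : 0 < ((padicNorm p ((eval x (F j) : ℤ) : ℚ) : ℚ) : ℝ) := by
    rw [hval]
    exact zpow_pos hpR _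
  have h2 := Real.log_le_log h0 h1
  rw [hval, Real.log_zpow] at h2
  unfold locP
  push_cast at h2
  linarith

theorem natDegree_bind_le (b : ℤ) (m l : Fin r → ℕ) (c : Fin ν → Fin r → ℤ)
    (P : MvPolynomial (Fin ν) ℤ) (f : ℕ) (hP : P.IsHomogeneous f) (δ : ℕ)
    (hδ : ∀ i, (sub b m l (li (c i))).natDegree ≤ δ) :
    (sub b m l (bind₁ (fun i => li (c i)) P)).natDegree ≤ f * δ := by
  classical
  rw [bind_eq, map_sum]
  apply Polynomial.natDegree_sum_le_of_forall_le
  intro t ht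
  rw [map_mul, map_prod]
  refine Polynomial.natDegree_mul_le.trans ?_
  have h1 : sub b m l (C (coeff t P)) = ((coeff t P : ℤ) : Polynomial ℤ) := by
    rw [algHom_C]
    simp
  rw [h1, Polynomial.natDegree_intCast, zero_add]
  refine (Polynomial.natDegree_prod_le _ _).trans ?_
  have h2 : ∑ i, t i = f := homog_sum hP ht
  calc ∑ i, (sub b m l (li (c i) ^ t i)).natDegree ≤ ∑ i, t i * δ := by
        refine Finset.sum_le_sum fun i _ => ?_
        rw [map_pow]
        exact Polynomial.natDegree_pow_le.trans (Nat.mul_le_mul_left _ (hδ i))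
    _ = f * δ := by rw [← Finset.sum_mul, h2]

/-- the value at `b` of the determinants of derivatives -/
theorem jac_eval (b : ℤ) (m l : Fin r → ℕ) (c : Fin ν → Fin r → ℤ) (a : Fin n → Fin r → ℕ)
    (J : Fin n → Fin ν) :
    (sub b m l (jac (fun i => c (J i)) a)).eval b =
      ((Matrix.of fun j k => eval (fun i => b ^ (m i + l i)) (Eul (a k) (li (c j)))).submatrix
        J id).det := by
  rw [sub_eval]
  unfold jac
  rw [RingHom.map_det]
  rfl

/-- the inequality of heights at one point of a variety -/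
theorem fin_ineqX (hν : ν = n + s) (b : ℕ) (hb : 2 ≤ b) (m l : Fin r → ℕ)
    (c : Fin ν → Fin r → ℤ) (a : Fin n → Fin r → ℕ)
    (D : ℕ) (hD : 1 ≤ D) (hnD : n ≤ D) (hcomp : ∀ k, Comp D l (a k)) {g q w : ℕ}
    (G : Fin g → MvPolynomial (Fin ν) ℤ) (e : Fin g → ℕ) (hG : ∀ k, (G k).IsHomogeneous (e k))
    (heD : ∀ k, e k ≤ D)
    (F : Fin q → Fin w → MvPolynomial (Fin ν) ℤ) (d : Fin q → Fin w → ℕ)
    (hF : ∀ i j, (F i j).IsHomogeneous (d i j)) (hdD : ∀ i j, d i j ≤ D)
    (hnc : NCInt s G F) (J0 : Fin n → Fin ν)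
    (hjac : sub (b : ℤ) m l (jac (fun i => c (J0 i)) a) ≠ 0) (W A : ℕ) (hW1 : 1 ≤ W)
    (hW : ∀ i, nz (li (c i)) ≤ W)
    (hWF : ∀ i j, nz (bind₁ (fun i => li (c i)) (F i j)) ≤ W)
    (hWG : ∀ k, nz (bind₁ (fun i => li (c i)) (G k)) ≤ W)
    (hWJ : ∀ J : Fin n → Fin ν, nz (jac (fun i => c (J i)) a) ≤ W)
    (hm : ∀ j, m j ≤ A) (hl : Gapped D ((b * D + W + 1) * (A + 1)) l)
    (x : Fin ν → ℤ) (hx : ∀ i, x i = ∑ j, c i j * (b : ℤ) ^ (m j + l j))
    (hprim : univ.gcd x = 1) (hGx : ∀ k, eval x (G k) = 0)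
    (hFx : ∀ i, ∃ j, eval x (F i j) ≠ 0) (H : ℕ)
    (hH : H = univ.sup (fun i => (x i).natAbs))
    (AA : Matrix (Fin ν) (Fin n) ℤ)
    (hAA : ∀ y : Fin n → ℚ, (∀ j, ∑ c, (AA j c : ℚ) * y c = 0) → y = 0)
    (hGA : ∀ k c, ∑ j, eval x (pderiv j (G k)) * AA j c = 0) :
    ∑ i, (locInf (F i) (d i) H x + ∑ p ∈ b.primeFactors, locP (F i) p x) +
      Real.log (ratio (fun J : Fin n → Fin ν => (AA.submatrix J id).det)) ≤
      n * Real.log H + (n * Real.log 2 + Real.log ((W * b ^ (D * A) : ℕ) : ℝ) +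
        ∑ _i : Fin q, ((D + 1) * Real.log ((W * b ^ (D * A) : ℕ) : ℝ) + Real.log 2)) := by
  classical
  have hb0 : (0 : ℤ) < b := by positivity
  set Q : ℕ := W * b ^ (D * A) with hQ
  set gp : ℕ := (b * D + W + 1) * (A + 1) with hg
  have hQg : 2 * Q < 2 ^ gp := two_mul_lt b D A W
  have hQbg : 2 * Q ≤ b ^ gp := hQg.le.trans (Nat.pow_le_pow_left hb gp)
  have hQ1 : 1 ≤ Q := Nat.mul_pos hW1 (Nat.pow_pos (by omega))
  set γ : Fin ν → Polynomial ℤ := fun i => sub (b : ℤ) m l (li (c i)) with hγ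
  set P : Fin q → Fin w → Polynomial ℤ :=
    fun i j => sub (b : ℤ) m l (bind₁ (fun i => li (c i)) (F i j)) with hP
  have hdegD : ∀ (R : MvPolynomial (Fin r) ℤ) (f : ℕ), R.IsHomogeneous f → f ≤ D →
      ∀ α ∈ R.support, ∑ j, α j ≤ D := by
    intro R f hR hf α hα
    rw [homog_sum hR hα]
    exact hf
  have hCB : ∀ (R : MvPolynomial (Fin r) ℤ) (f : ℕ), R.IsHomogeneous f → f ≤ D → nz R ≤ W →
      CoefBound (sub (b : ℤ) m l R) Q := fun R f hR hf hW =>
    sub_coefBound b hb m l D A hm _ (hdegD R f hR hf) W hW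
  have hGP : ∀ (R : MvPolynomial (Fin r) ℤ) (f : ℕ), R.IsHomogeneous f → f ≤ D →
      Gaps (sub (b : ℤ) m l R) gp := fun R f hR hf =>
    sub_gaps (b : ℤ) m l D gp hl _ (hdegD R f hR hf)
  have hγQ : ∀ i, CoefBound (γ i) Q := fun i => hCB _ 1 (li_homog (c i)) hD (hW i)
  have hγg : ∀ i, Gaps (γ i) gp := fun i => hGP _ 1 (li_homog (c i)) hD
  have hPQ : ∀ i j, CoefBound (P i j) Q := fun i j =>
    hCB _ (d i j) (bind_homog c _ (hF i j)) (hdD i j) (hWF i j)
  have hPg : ∀ i j, Gaps (P i j) gp := fun i j =>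
    hGP _ (d i j) (bind_homog c _ (hF i j)) (hdD i j)
  have hpt : (fun i => eval (fun j => (b : ℤ) ^ (m j + l j)) (li (c i))) = x := by
    funext i
    rw [hx, eval_li]
    exact Finset.sum_congr rfl fun j _ => mul_comm _ _
  have hγx : ∀ i, (γ i).eval (b : ℤ) = x i := by
    intro i
    rw [hγ]
    simp only
    rw [sub_eval]
    exact congrFun hpt i
  have hbx : ∀ R : MvPolynomial (Fin ν) ℤ,
      (sub (b : ℤ) m l (bind₁ (fun i => li (c i)) R)).eval (b : ℤ) = eval x R := by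
    intro R
    rw [sub_eval, eval_bind, hpt]
  have hPx : ∀ i j, (P i j).eval (b : ℤ) = eval x (F i j) := fun i j => hbx _
  have hG0 : ∀ k, sub (b : ℤ) m l (bind₁ (fun i => li (c i)) (G k)) = 0 := by
    intro k
    by_contra h0
    have h1 := eval_ne_zero h0 (hCB _ (e k) (bind_homog c _ (hG k)) (heD k) (hWG k))
      (hGP _ (e k) (bind_homog c _ (hG k)) (heD k)) b hb hQbg
    rw [hbx, hGx] at h1
    exact h1 rfl
  have hP0 : ∀ i j, eval x (F i j) ≠ 0 → P i j ≠ 0 := by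
    intro i j hij h0
    apply hij
    rw [← hPx, h0, Polynomial.eval_zero]
  have hP0' : ∀ i j, P i j ≠ 0 → eval x (F i j) ≠ 0 := by
    intro i j hij
    have := eval_ne_zero hij (hPQ i j) (hPg i j) b hb hQbg
    rwa [hPx] at this
  -- the point is not zero
  obtain ⟨i1, hi1⟩ : ∃ i, ¬ (Polynomial.X : Polynomial ℤ) ∣ γ i := by
    by_contra hcon
    push Not at hcon
    have h1 : (b : ℤ) ∣ univ.gcd x := by
      apply Finset.dvd_gcd
      intro i _
      obtain ⟨y, hy⟩ := hcon i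
      rw [← hγx, hy, Polynomial.eval_mul, Polynomial.eval_X]
      exact dvd_mul_right _ _
    rw [hprim] at h1
    have h2 := Int.le_of_dvd one_pos h1
    have : (2 : ℤ) ≤ b := by exact_mod_cast hb
    linarith
  have hγi1 : γ i1 ≠ 0 := fun h0 => hi1 (by rw [h0]; exact dvd_zero _)
  have hx0 : x ≠ 0 := by
    intro h0
    rw [h0] at hprim
    have : univ.gcd (0 : Fin ν → ℤ) = 0 := by
      rw [Finset.gcd_eq_zero_iff]
      exact fun _ _ => rfl
    rw [this] at hprim
    exact zero_ne_one hprim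
  set δ : ℕ := univ.sup (fun i => (γ i).natDegree) with hδ
  have hδle : ∀ i, (γ i).natDegree ≤ δ := fun i =>
    Finset.le_sup (f := fun i => (γ i).natDegree) (mem_univ i)
  obtain ⟨i0, hi00, hi0⟩ : ∃ i, γ i ≠ 0 ∧ (γ i).natDegree = δ := by
    obtain ⟨i, _, hi⟩ := Finset.exists_mem_eq_sup univ ⟨i1, mem_univ _⟩
      (fun i => (γ i).natDegree)
    by_cases h0 : γ i = 0
    · refine ⟨i1, hγi1, ?_⟩
      have h1 : δ = 0 := by
        rw [hδ, hi, h0, Polynomial.natDegree_zero]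
      have := hδle i1
      omega
    · exact ⟨i, h0, hi.symm⟩
  -- orders
  have hdegP : ∀ i j, (P i j).natDegree ≤ d i j * δ := fun i j =>
    natDegree_bind_le (b : ℤ) m l c _ _ (hF i j) δ hδle
  have hne : ∀ i, (univ.filter (fun j => P i j ≠ 0)).Nonempty := by
    intro i
    obtain ⟨j, hj⟩ := hFx i
    exact ⟨j, Finset.mem_filter.2 ⟨mem_univ _, hP0 i j hj⟩⟩
  have hj1 : ∀ i, ∃ j, P i j ≠ 0 ∧ ∀ j', P i j' ≠ 0 →
      (P i j).natTrailingDegree ≤ (P i j').natTrailingDegree := by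
    intro i
    obtain ⟨j, hj, hmin⟩ := Finset.exists_min_image _ (fun j => (P i j).natTrailingDegree) (hne i)
    exact ⟨j, (Finset.mem_filter.1 hj).2, fun j' hj' =>
      hmin j' (Finset.mem_filter.2 ⟨mem_univ _, hj'⟩)⟩
  have hj2 : ∀ i, ∃ j, P i j ≠ 0 ∧ ∀ j', P i j' ≠ 0 →
      d i j * δ - (P i j).natDegree ≤ d i j' * δ - (P i j').natDegree := by
    intro i
    obtain ⟨j, hj, hmin⟩ := Finset.exists_min_image _
      (fun j => d i j * δ - (P i j).natDegree) (hne i)
    exact ⟨j, (Finset.mem_filter.1 hj).2, fun j' hj' =>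
      hmin j' (Finset.mem_filter.2 ⟨mem_univ _, hj'⟩)⟩
  choose j1 hj10 hj1 using hj1
  choose j2 hj20 hj2 using hj2
  set tr : Fin q → ℕ := fun i => (P i (j1 i)).natTrailingDegree with htr
  set dd : Fin q → ℕ := fun i => d i (j2 i) * δ - (P i (j2 i)).natDegree with hdd
  have hcomb := comb_ineqX hν (b : ℤ) m l c a D hD hcomp G e hG heD F d hF hdD hnc hG0
    ⟨i1, hi1⟩ δ hδle ⟨i0, hi00, hi0⟩ tr dd (by
      intro i j
      by_cases h0 : P i j = 0
      · change _ ∣ P i j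
        rw [h0]
        exact dvd_zero _
      · rw [Polynomial.X_pow_dvd_iff]
        intro y hy
        apply Polynomial.coeff_eq_zero_of_lt_natTrailingDegree
        exact lt_of_lt_of_le hy (hj1 i j h0)) (by
      intro i j h0
      have h1 := hj2 i j h0
      have h2 := hdegP i j
      change (P i j).natDegree + (d i (j2 i) * δ - (P i (j2 i)).natDegree) ≤ d i j * δ
      omega)
  -- the minors
  set Mb : Matrix (Fin ν) (Fin n) ℤ :=
    Matrix.of fun j k => eval (fun i => (b : ℤ) ^ (m i + l i)) (Eul (a k) (li (c j))) with hMb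
  have hV : ∀ J : Fin n → Fin ν, (Mb.submatrix J id).det =
      (sub (b : ℤ) m l (jac (fun i => c (J i)) a)).eval (b : ℤ) :=
    fun J => (jac_eval (b : ℤ) m l c a J).symm
  have hV0 : (Mb.submatrix J0 id).det ≠ 0 := by
    rw [hV]
    exact eval_ne_zero hjac (hCB _ n (jac_homog _ a) hnD (hWJ J0)) (hGP _ n (jac_homog _ a) hnD)
      b hb hQbg
  have hsdd : ∑ i, dd i ≤ n * δ := by
    have := (hcomb J0).2 hjac
    omega
  have hbR : (0 : ℝ) < b := by positivity
  have hb1R : (1 : ℝ) ≤ b := by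
    have : (2 : ℝ) ≤ b := by exact_mod_cast hb
    linarith
  have : Nonempty (Fin n → Fin ν) := ⟨J0⟩
  have hratio := ratio_le (fun J : Fin n → Fin ν => (Mb.submatrix J id).det)
    ((Q : ℝ) * (b : ℝ) ^ (n * δ - ∑ i, dd i)) (b ^ (∑ i, tr i)) (Nat.pow_pos (by omega))
    ⟨J0, hV0⟩ (by
      intro J
      rw [hV]
      by_cases h0 : sub (b : ℤ) m l (jac (fun i => c (J i)) a) = 0
      · rw [h0, Polynomial.eval_zero, Int.cast_zero, abs_zero]
        positivity
      · have h1 := (hcomb J).2 h0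
        have h2 := eval_le (hCB _ n (jac_homog _ a) hnD (hWJ J)) b hb (n * δ - ∑ i, dd i)
          (by omega)
        exact_mod_cast h2) (by
      intro J
      rw [hV]
      obtain ⟨y, hy⟩ := (hcomb J).1
      rw [hy, Polynomial.eval_mul, Polynomial.eval_pow, Polynomial.eval_X]
      push_cast
      exact dvd_mul_right _ _)
  -- the rows of the Jacobian matrix
  obtain ⟨K, jj, hind⟩ := hnc x hx0 hGx
  have hrows : LinearIndependent ℚ
      (Matrix.of fun (a : Fin s) (j : Fin ν) => ((eval x (pderiv j (G (K a))) : ℤ) : ℚ)).row := by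
    rw [← LinearIndependent.iff_fractionRing (R := ℤ) (K := ℚ), Fintype.linearIndependent_iff]
    intro κ hκ
    have h1 := hind κ 0 (fun i hi => absurd rfl hi) (by
      intro y
      have h2 := congrFun hκ y
      rw [Finset.sum_apply] at h2
      simp only [Pi.smul_apply, Pi.zero_apply, Matrix.row, Matrix.of_apply, zsmul_eq_mul] at h2
      simp only [Pi.zero_apply, zero_mul, Finset.sum_const_zero, add_zero]
      exact_mod_cast h2)
    exact fun i => congrFun h1.1 i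
  have hMbG : ∀ k c', ∑ j, eval x (pderiv j (G k)) * Mb j c' = 0 := by
    intro k c'
    have h1 : sub (b : ℤ) m l (Eul (a c') (bind₁ (fun i => li (c i)) (G k))) = 0 := by
      ext y
      obtain ⟨κ, hκ⟩ := sub_Eul_coeff (b : ℤ) m l (a c') D (e k) (heD k) _
        (bind_homog c _ (hG k)) (hcomp c') y
      rw [hκ, hG0, Polynomial.coeff_zero, mul_zero]
    have h2 : Eul (a c') (bind₁ (fun i => li (c i)) (G k)) =
        ∑ j, bind₁ (fun i => li (c i)) (pderiv j (G k)) * Eul (a c') (li (c j)) :=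
      deriv_aeval_int (Eul (a c')) (fun i => li (c i)) (G k)
    have h3 := sub_eval (b : ℤ) m l (Eul (a c') (bind₁ (fun i => li (c i)) (G k)))
    rw [h1, Polynomial.eval_zero, h2, map_sum] at h3
    rw [h3]
    refine Finset.sum_congr rfl fun j _ => ?_
    rw [map_mul, eval_bind, hpt]
    rfl
  obtain ⟨α, β, hα, hβ, hpl⟩ := plucker hν _ hrows AA Mb hAA (by
    intro y hy
    have hdetQ : ((Mb.submatrix J0 id).map (Int.castRingHom ℚ)).det ≠ 0 := by
      have := (RingHom.map_det (Int.castRingHom ℚ) (Mb.submatrix J0 id)).symm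
      have h2 : ((Mb.submatrix J0 id).map (Int.castRingHom ℚ)).det =
          (((Mb.submatrix J0 id).det : ℤ) : ℚ) := this
      rw [h2]
      exact_mod_cast hV0
    apply Matrix.eq_zero_of_mulVec_eq_zero hdetQ
    funext i
    exact hy (J0 i)) (by
    intro k c'
    have h1 := hGA (K k) c'
    simp only [Matrix.of_apply]
    exact_mod_cast h1) (by
    intro k c'
    have h1 := hMbG (K k) c'
    simp only [Matrix.of_apply]
    exact_mod_cast h1)
  have hreq := ratio_eq (fun J : Fin n → Fin ν => (AA.submatrix J id).det)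
    (fun J => (Mb.submatrix J id).det) α β hα hβ hpl
  rw [hreq]
  -- sizes
  have hlogb : 0 < Real.log b := Real.log_pos (by
    have : (2 : ℝ) ≤ b := by exact_mod_cast hb
    linarith)
  have hxH : ∀ i, |x i| ≤ (H : ℤ) := by
    intro i
    rw [Int.abs_eq_natAbs, hH]
    exact_mod_cast Finset.le_sup (f := fun i => (x i).natAbs) (mem_univ i)
  have hbδ : (b : ℝ) ^ δ ≤ 2 * H := by
    have h1 := le_eval hi00 (hγQ i0) (hγg i0) b hb hQbg
    rw [hi0, hγx] at h1
    have h2 : (b : ℤ) ^ δ ≤ 2 * H := h1.trans (by linarith [hxH i0])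
    exact_mod_cast h2
  have hH0 : (0 : ℝ) < H := by
    have : (0 : ℝ) < (b : ℝ) ^ δ := pow_pos hbR _
    linarith
  have hHN : 0 < H := by exact_mod_cast hH0
  have hHQ : (H : ℝ) ≤ Q * (b : ℝ) ^ δ := by
    obtain ⟨i, _, hi⟩ := Finset.exists_mem_eq_sup univ ⟨i1, mem_univ _⟩
      (fun i => (x i).natAbs)
    have h1 := eval_le (hγQ i) b hb δ (hδle i)
    rw [hγx, Int.abs_eq_natAbs] at h1
    rw [hH, hi]
    exact_mod_cast h1
  have hQR : (0 : ℝ) < Q := by exact_mod_cast hQ1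
  have hlog1 : Real.log H ≤ Real.log Q + δ * Real.log b := by
    have h1 := Real.log_le_log hH0 hHQ
    rw [Real.log_mul hQR.ne' (pow_pos hbR _).ne', Real.log_pow] at h1
    exact h1
  have hlog2 : δ * Real.log b ≤ Real.log 2 + Real.log H := by
    have h1 := Real.log_le_log (pow_pos hbR _) hbδ
    rw [Real.log_mul (by norm_num) hH0.ne', Real.log_pow] at h1
    exact h1
  have hlogQ : 0 ≤ Real.log Q := Real.log_natCast_nonneg Q
  have hterm : ∀ i, locInf (F i) (d i) H x + ∑ p ∈ b.primeFactors, locP (F i) p x ≤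
      ((dd i + tr i : ℕ) : ℝ) * Real.log b + ((D + 1) * Real.log Q + Real.log 2) := by
    intro i
    have hx2 := hP0' i (j2 i) (hj20 i)
    have hx1 := hP0' i (j1 i) (hj10 i)
    have hF0 : (0 : ℝ) < |((eval x (F i (j2 i)) : ℤ) : ℝ)| := abs_pos.2 (by exact_mod_cast hx2)
    have h1 : ((P i (j2 i)).natDegree : ℝ) * Real.log b ≤
        Real.log 2 + Real.log |((eval x (F i (j2 i)) : ℤ) : ℝ)| := by
      have h2 := le_eval (hj20 i) (hPQ i (j2 i)) (hPg i (j2 i)) b hb hQbg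
      rw [hPx] at h2
      have h3 : (b : ℝ) ^ (P i (j2 i)).natDegree ≤ 2 * |((eval x (F i (j2 i)) : ℤ) : ℝ)| := by
        exact_mod_cast h2
      have h4 := Real.log_le_log (pow_pos hbR _) h3
      rw [Real.log_mul (by norm_num) hF0.ne', Real.log_pow] at h4
      exact h4
    have h2 := sum_val_le (hj10 i) (hPQ i (j1 i)) (hPg i (j1 i)) b hb hQg
    rw [hPx] at h2
    have h3 : ∑ p ∈ b.primeFactors, locP (F i) p x ≤
        ∑ p ∈ b.primeFactors, (padicValInt p (eval x (F i (j1 i))) : ℝ) * Real.log p :=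
      Finset.sum_le_sum fun p hp => locP_le (F i) p (Nat.prime_of_mem_primeFactors hp) x _ hx1
    have h4 := locInf_le (F i) (d i) H x hHN (j2 i) hx2
    have h5 : (d i (j2 i) : ℝ) * Real.log H ≤ d i (j2 i) * (Real.log Q + δ * Real.log b) :=
      mul_le_mul_of_nonneg_left hlog1 (by positivity)
    have h6 : (d i (j2 i) : ℝ) * Real.log Q ≤ D * Real.log Q := by
      refine mul_le_mul_of_nonneg_right ?_ hlogQ
      exact_mod_cast hdD i (j2 i)
    have h7 : (dd i : ℝ) = (d i (j2 i) : ℝ) * δ - (P i (j2 i)).natDegree := by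
      rw [hdd]
      simp only
      rw [Nat.cast_sub (hdegP i (j2 i))]
      push_cast
      ring
    have h8 : (tr i : ℝ) = ((P i (j1 i)).natTrailingDegree : ℝ) := rfl
    push_cast
    rw [h7, h8]
    nlinarith
  have hlogratio : Real.log (ratio (fun J : Fin n → Fin ν => (Mb.submatrix J id).det)) ≤
      Real.log Q + ((n : ℝ) * δ - ((∑ i, dd i : ℕ) : ℝ) - ((∑ i, tr i : ℕ) : ℝ)) *
        Real.log b := by
    have h1 := Real.log_le_log hratio.1 hratio.2
    rw [Real.log_div (by positivity) (by positivity), Real.log_mul hQR.ne'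
      (pow_pos hbR _).ne', Real.log_pow, Nat.cast_pow, Real.log_pow, Nat.cast_sub hsdd] at h1
    push_cast at h1 ⊢
    linarith
  have hsum : ∑ i, (locInf (F i) (d i) H x + ∑ p ∈ b.primeFactors, locP (F i) p x) ≤
      (((∑ i, dd i : ℕ) : ℝ) + ((∑ i, tr i : ℕ) : ℝ)) * Real.log b +
        ∑ _i : Fin q, ((D + 1) * Real.log (Q : ℝ) + Real.log 2) := by
    refine (Finset.sum_le_sum fun i _ => hterm i).trans (le_of_eq ?_)
    rw [Finset.sum_add_distrib, ← Finset.sum_mul]
    congr 2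
    push_cast
    rw [Finset.sum_add_distrib]
  have h1 : (n : ℝ) * (δ * Real.log b) ≤ n * (Real.log 2 + Real.log H) :=
    mul_le_mul_of_nonneg_left hlog2 (by positivity)
  nlinarith

end Pool.Agent.TH585.VF
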