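import Mathlib
import Pool.Agent.TH585.VF.Fin
import Pool.Agent.TH585.VF.Dich

/-!
# Vojta's inequality at points with few digits
-/

set_option autoImplicit false

namespace Pool.Agent.TH585.VF

open Finset MvPolynomial Pool.Agent.H458.Sp

variable {r n : ℕ}

/-- the inequality at the point `x` with the error term `C` -/
def Ineq {q : ℕ} (F : Fin q → MvPolynomial (Fin n) ℤ) (d : Fin q → ℕ) (b : ℕ)
    (x : Fin n → ℤ) (C : ℝ) : Prop :=
  ∑ i, (Real.log (((univ.sup (fun i => (x i).natAbs) : ℕ) : ℝ) ^ d i /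
      |((eval x (F i) : ℤ) : ℝ)|) +
    ∑ p ∈ b.primeFactors, (padicValInt p (eval x (F i)) : ℝ) * Real.log p) ≤
    n * Real.log ((univ.sup (fun i => (x i).natAbs) : ℕ) : ℝ) + C

/-- the inequality holds for the primitive points of `Y` outside of the divisor and a hypersurface -/
def Cov {q : ℕ} (F : Fin q → MvPolynomial (Fin n) ℤ) (d : Fin q → ℕ) (b : ℕ)
    (Y : Set (Fin n → ℤ)) : Prop :=
  ∃ (Φ : MvPolynomial (Fin n) ℚ) (k : ℕ) (C : ℝ), Φ ≠ 0 ∧ Φ.IsHomogeneous k ∧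
    ∀ x ∈ Y, univ.gcd x = 1 → eval (fun i => (x i : ℚ)) Φ ≠ 0 →
      (∀ i, eval x (F i) ≠ 0) → Ineq F d b x C

theorem Cov.mono {q : ℕ} {F : Fin q → MvPolynomial (Fin n) ℤ} {d : Fin q → ℕ} {b : ℕ}
    {Y Z : Set (Fin n → ℤ)} (h : Cov F d b Y) (hZ : Z ⊆ Y) : Cov F d b Z := by
  obtain ⟨Φ, k, C, h1, h2, h3⟩ := h
  exact ⟨Φ, k, C, h1, h2, fun x hx => h3 x (hZ hx)⟩

theorem Cov.empty {q : ℕ} (F : Fin q → MvPolynomial (Fin n) ℤ) (d : Fin q → ℕ) (b : ℕ) :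
    Cov F d b ∅ :=
  ⟨1, 0, 0, one_ne_zero, isHomogeneous_one _ _, fun x hx => absurd hx (Set.notMem_empty x)⟩

theorem Cov.union {q : ℕ} {F : Fin q → MvPolynomial (Fin n) ℤ} {d : Fin q → ℕ} {b : ℕ}
    {Y Z : Set (Fin n → ℤ)} (hY : Cov F d b Y) (hZ : Cov F d b Z) : Cov F d b (Y ∪ Z) := by
  obtain ⟨Φ, k, C, h1, h2, h3⟩ := hY
  obtain ⟨Φ', k', C', h1', h2', h3'⟩ := hZ
  refine ⟨Φ * Φ', k + k', max C C', mul_ne_zero h1 h1', h2.mul h2', ?_⟩
  intro x hx hg hΦ hF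
  rw [map_mul] at hΦ
  rcases hx with hx | hx
  · have := h3 x hx hg (left_ne_zero_of_mul hΦ) hF
    unfold Ineq at this ⊢
    linarith [le_max_left C C']
  · have := h3' x hx hg (right_ne_zero_of_mul hΦ) hF
    unfold Ineq at this ⊢
    linarith [le_max_right C C']

theorem Cov.biUnion {q : ℕ} {F : Fin q → MvPolynomial (Fin n) ℤ} {d : Fin q → ℕ} {b : ℕ}
    {ι : Type} {s : Set ι} (hs : s.Finite) (Y : ι → Set (Fin n → ℤ))
    (h : ∀ i ∈ s, Cov F d b (Y i)) : Cov F d b (⋃ i ∈ s, Y i) := by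
  classical
  induction s, hs using Set.Finite.induction_on with
  | empty =>
    rw [Set.biUnion_empty]
    exact Cov.empty F d b
  | insert _ _ ih =>
    rw [Set.biUnion_insert]
    exact (h _ (Set.mem_insert _ _)).union (ih fun i hi => h i (Set.mem_insert_of_mem _ hi))

/-- the points with given coefficients, bounded part and relations -/
def Pts (b D W : ℕ) (A₁ : ℕ) (c : Fin n → Fin r → ℤ) (m : Fin r → ℕ)
    (R : Set ((Fin r → Fin (D + 1)) × (Fin r → Fin (D + 1)))) : Set (Fin n → ℤ) :=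
  {x | ∃ (l : Fin r → ℕ) (A : ℕ), Rel D l = R ∧ A ≤ A₁ ∧ (∀ j, m j ≤ A) ∧
    Gapped D ((b * D + W + 1) * (A + 1)) l ∧ ∀ i, x i = ∑ j, c i j * (b : ℤ) ^ (m j + l j)}

theorem cov_pts (b : ℕ) (hb : 2 ≤ b) (D W A₁ : ℕ) (hD : 1 ≤ D) (hn : n ≤ D)
    (c : Fin n → Fin r → ℤ) (m : Fin r → ℕ)
    (R : Set ((Fin r → Fin (D + 1)) × (Fin r → Fin (D + 1)))) {q : ℕ}
    (F : Fin q → MvPolynomial (Fin n) ℤ) (d : Fin q → ℕ)
    (hF : ∀ i, (F i).IsHomogeneous (d i)) (hdD : ∀ i, d i ≤ D)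
    (hnc : ∀ z : Fin n → ℤ, z ≠ 0 → ∀ κ : Fin q → ℤ, (∀ i, κ i ≠ 0 → eval z (F i) = 0) →
      (∀ j, ∑ i, κ i * eval z (pderiv j (F i)) = 0) → κ = 0)
    (hW1 : 1 ≤ W) (hW : ∀ i, nz (li (c i)) ≤ W)
    (hW' : ∀ i, nz (bind₁ (fun i => li (c i)) (F i)) ≤ W) :
    Cov F d b (Pts b D W A₁ c m R) := by
  classical
  by_cases hR : ∃ l₀ : Fin r → ℕ, Rel D l₀ = R
  · obtain ⟨l₀, rfl⟩ := hR
    rcases dich b hb D hn c m l₀ with ⟨a, ha1, ha2⟩ | ⟨Φ, hΦ, hΦ2⟩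
    · refine ⟨1, 0, n * Real.log 2 + ∑ i, ((d i + 1) *
        Real.log ((W * b ^ (D * A₁) : ℕ) : ℝ) + Real.log 2), one_ne_zero,
        isHomogeneous_one _ _, ?_⟩
      rintro x ⟨l, A, hl, hA, hm, hgap, hx⟩ hg _ hFx
      have h1 := fin_ineq b hb m l c a D hD (fun k => comp_of_rel (by
        rw [hl]
        exact ha1 k)) F d hF hdD hnc (ha2 l hl) W A hW1 hW hW' hm hgap x hx hg hFx _ rfl
      unfold Ineq
      refine h1.trans ?_
      have h2 : Real.log ((W * b ^ (D * A) : ℕ) : ℝ) ≤ Real.log ((W * b ^ (D * A₁) : ℕ) : ℝ) := by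
        apply Real.log_le_log
        · have : 0 < W * b ^ (D * A) := Nat.mul_pos hW1 (Nat.pow_pos (by omega))
          exact_mod_cast this
        · have : W * b ^ (D * A) ≤ W * b ^ (D * A₁) :=
            Nat.mul_le_mul_left _ (Nat.pow_le_pow_right (by omega) (Nat.mul_le_mul_left _ hA))
          exact_mod_cast this
      have h3 : ∑ i, (((d i : ℕ) : ℝ) + 1) * Real.log ((W * b ^ (D * A) : ℕ) : ℝ) ≤
          ∑ i, ((d i : ℝ) + 1) * Real.log ((W * b ^ (D * A₁) : ℕ) : ℝ) :=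
        Finset.sum_le_sum fun i _ => mul_le_mul_of_nonneg_left h2 (by positivity)
      rw [Finset.sum_add_distrib, Finset.sum_add_distrib]
      linarith
    · obtain ⟨k, hk⟩ : ∃ k, homogeneousComponent k Φ ≠ 0 := by
        by_contra hcon
        push Not at hcon
        apply hΦ
        rw [← sum_homogeneousComponent Φ]
        exact Finset.sum_eq_zero fun k _ => hcon k
      refine ⟨homogeneousComponent k Φ, k, 0, hk, homogeneousComponent_isHomogeneous k Φ, ?_⟩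
      rintro x ⟨l, A, hl, hA, hm, hgap, hx⟩ hg hne hFx
      exfalso
      apply hne
      have h1 := homog_comp Φ b hb (fun i => (x i : ℝ)) (by
        intro τ
        have h2 := hΦ2 l hl τ
        have h3 : (fun i => (b : ℝ) ^ τ * (x i : ℝ)) = fun i => (b : ℝ) ^ τ *
            ((∑ j, c i j * (b : ℤ) ^ (m j + l j) : ℤ) : ℝ) := by
          funext i
          rw [hx i]
        rw [h3]
        exact h2) k
      have h4 : aeval (fun i => (x i : ℝ)) (homogeneousComponent k Φ) =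
          algebraMap ℚ ℝ (eval (fun i => (x i : ℚ)) (homogeneousComponent k Φ)) := by
        have h5 : (fun i => (x i : ℝ)) = (algebraMap ℚ ℝ) ∘ (fun i => (x i : ℚ)) := by
          funext i
          simp
        rw [h5, aeval_algebraMap_apply]
        congr 1
      rw [h4] at h1
      exact (map_eq_zero _).1 h1
  · refine Cov.mono (Cov.empty F d b) ?_
    rintro x ⟨l, A, hl, _⟩
    exact absurd ⟨l, hl⟩ hR

/-- **Main theorem.** -/
theorem main (n q : ℕ) (F : Fin q → MvPolynomial (Fin n) ℤ) (d : Fin q → ℕ)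
    (hF : ∀ i, (F i).IsHomogeneous (d i))
    (hnc : ∀ z : Fin n → ℤ, z ≠ 0 → ∀ κ : Fin q → ℤ, (∀ i, κ i ≠ 0 → eval z (F i) = 0) →
      (∀ j, ∑ i, κ i * eval z (pderiv j (F i)) = 0) → κ = 0)
    (b r B : ℕ) (hb : 2 ≤ b) :
    Cov F d b {x | ∃ (e : Fin r → ℕ) (v : Fin r → Fin n → ℤ), (∀ j i, |v j i| ≤ B) ∧
      ∀ i, x i = ∑ j, v j i * (b : ℤ) ^ (e j)} := by
  classical
  set D : ℕ := univ.sup d + n + 1 with hDdef
  have hD : 1 ≤ D := by omega
  have hn : n ≤ D := by omega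
  have hdD : ∀ i, d i ≤ D := fun i => by
    have := Finset.le_sup (f := d) (mem_univ i)
    omega
  set CC : Set (Fin n → Fin r → ℤ) := Set.Icc (fun _ _ => -(B : ℤ)) (fun _ _ => (B : ℤ)) with hCC
  have hCCfin : CC.Finite := Set.finite_Icc _ _
  -- the bound for the sizes of the forms
  obtain ⟨W, hW1, hW, hW'⟩ : ∃ W : ℕ, 1 ≤ W ∧ (∀ c ∈ CC, ∀ i, nz (li (c i)) ≤ W) ∧
      ∀ c ∈ CC, ∀ i, nz (bind₁ (fun i => li (c i)) (F i)) ≤ W := by
    obtain ⟨W1, hW1⟩ : ∃ W1 : ℤ, ∀ c ∈ CC, ∀ i, nz (li (c i)) ≤ W1 := by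
      obtain ⟨W1, hW1⟩ := (hCCfin.image (fun c => ∑ i, nz (li (c i)))).bddAbove
      refine ⟨W1, fun c hc i => ?_⟩
      exact (Finset.single_le_sum (f := fun i => nz (li (c i))) (fun _ _ => nz_nonneg _)
        (mem_univ i)).trans (hW1 ⟨c, hc, rfl⟩)
    obtain ⟨W2, hW2⟩ : ∃ W2 : ℤ, ∀ c ∈ CC, ∀ i, nz (bind₁ (fun i => li (c i)) (F i)) ≤ W2 := by
      obtain ⟨W2, hW2⟩ := (hCCfin.image
        (fun c => ∑ i, nz (bind₁ (fun i => li (c i)) (F i)))).bddAbove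
      refine ⟨W2, fun c hc i => ?_⟩
      exact (Finset.single_le_sum (f := fun i => nz (bind₁ (fun i => li (c i)) (F i)))
        (fun _ _ => nz_nonneg _) (mem_univ i)).trans (hW2 ⟨c, hc, rfl⟩)
    refine ⟨W1.natAbs + W2.natAbs + 1, by omega, fun c hc i => ?_, fun c hc i => ?_⟩
    · have := hW1 c hc i
      omega
    · have := hW2 c hc i
      omega
  obtain ⟨A₁, hA₁⟩ := scale_split (r := r) D (b * D + W + 1)
  set MM : Set (Fin r → ℕ) := Set.Icc (fun _ => 0) (fun _ => A₁) with hMM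
  have hMMfin : MM.Finite := Set.finite_Icc _ _
  have hcov : Cov F d b (⋃ c ∈ CC, ⋃ m ∈ MM, ⋃ R ∈ (Set.univ :
      Set (Set ((Fin r → Fin (D + 1)) × (Fin r → Fin (D + 1))))), Pts b D W A₁ c m R) := by
    refine Cov.biUnion hCCfin _ fun c hc => Cov.biUnion hMMfin _ fun m _ =>
      Cov.biUnion (Set.toFinite _) _ fun R _ => ?_
    exact cov_pts b hb D W A₁ hD hn c m R F d hF hdD hnc hW1 (hW c hc) (hW' c hc)
  refine hcov.mono ?_
  rintro x ⟨e, v, hv, hx⟩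
  obtain ⟨A, m, l, hA, hml, hm, hgap⟩ := hA₁ e
  simp only [Set.mem_iUnion]
  refine ⟨fun i j => v j i, ?_, m, ?_, Rel D l, Set.mem_univ _, l, A, rfl, hA, hm, hgap, ?_⟩
  · rw [hCC, Set.mem_Icc]
    exact ⟨fun i j => (abs_le.1 (hv j i)).1, fun i j => (abs_le.1 (hv j i)).2⟩
  · rw [hMM, Set.mem_Icc]
    exact ⟨fun j => Nat.zero_le _, fun j => (hm j).trans hA⟩
  · intro i
    rw [hx i]
    exact Finset.sum_congr rfl fun j _ => by rw [hml]

end Pool.Agent.TH585.VF
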