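import Mathlib
import Pool.Agent.TH585.VF.FinX
import Pool.Agent.TH585.VF.DichX
import Pool.Agent.TH585.VF.Main

/-!
# Vojta's inequality at points with few digits of a variety
-/

set_option autoImplicit false

namespace Pool.Agent.TH585.VF

open Finset MvPolynomial Pool.Agent.H458.Sp

variable {r n ν s g q w : ℕ}

/-- the inequality at the point `x` with the error term `C` -/
def IneqX (n : ℕ) (G : Fin g → MvPolynomial (Fin ν) ℤ) (F : Fin q → Fin w → MvPolynomial (Fin ν) ℤ)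
    (d : Fin q → Fin w → ℕ) (b : ℕ) (x : Fin ν → ℤ) (C : ℝ) : Prop :=
  ∀ AA : Matrix (Fin ν) (Fin n) ℤ,
    (∀ y : Fin n → ℚ, (∀ j, ∑ c, (AA j c : ℚ) * y c = 0) → y = 0) →
    (∀ k c, ∑ j, eval x (pderiv j (G k)) * AA j c = 0) →
    ∑ i, (locInf (F i) (d i) (univ.sup (fun i => (x i).natAbs)) x +
      ∑ p ∈ b.primeFactors, locP (F i) p x) +
      Real.log (ratio (fun J : Fin n → Fin ν => (AA.submatrix J id).det)) ≤
      n * Real.log ((univ.sup (fun i => (x i).natAbs) : ℕ) : ℝ) + C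

theorem IneqX.mono {G : Fin g → MvPolynomial (Fin ν) ℤ}
    {F : Fin q → Fin w → MvPolynomial (Fin ν) ℤ} {d : Fin q → Fin w → ℕ} {b : ℕ} {x : Fin ν → ℤ}
    {C C' : ℝ} (h : IneqX n G F d b x C) (hC : C ≤ C') : IneqX n G F d b x C' := by
  intro AA h1 h2
  have := h AA h1 h2
  linarith

/-- the inequality holds for the primitive points of `Y` on the variety outside of the divisor and
a hypersurface -/
def CovX (G : Fin g → MvPolynomial (Fin ν) ℤ) (F : Fin q → Fin w → MvPolynomial (Fin ν) ℤ)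
    (d : Fin q → Fin w → ℕ) (b : ℕ) (J0 : Fin n → Fin ν) (Y : Set (Fin ν → ℤ)) : Prop :=
  ∃ (Φ : MvPolynomial (Fin n) ℚ) (k : ℕ) (C : ℝ), Φ ≠ 0 ∧ Φ.IsHomogeneous k ∧
    ∀ x ∈ Y, univ.gcd x = 1 → eval (fun i => (x (J0 i) : ℚ)) Φ ≠ 0 →
      (∀ k, eval x (G k) = 0) → (∀ i, ∃ j, eval x (F i j) ≠ 0) → IneqX n G F d b x C

section

variable {G : Fin g → MvPolynomial (Fin ν) ℤ} {F : Fin q → Fin w → MvPolynomial (Fin ν) ℤ}
  {d : Fin q → Fin w → ℕ} {b : ℕ} {J0 : Fin n → Fin ν}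

theorem CovX.mono {Y Z : Set (Fin ν → ℤ)} (h : CovX G F d b J0 Y) (hZ : Z ⊆ Y) :
    CovX G F d b J0 Z := by
  obtain ⟨Φ, k, C, h1, h2, h3⟩ := h
  exact ⟨Φ, k, C, h1, h2, fun x hx => h3 x (hZ hx)⟩

theorem CovX.empty : CovX G F d b J0 ∅ :=
  ⟨1, 0, 0, one_ne_zero, isHomogeneous_one _ _, fun x hx => absurd hx (Set.notMem_empty x)⟩

theorem CovX.union {Y Z : Set (Fin ν → ℤ)} (hY : CovX G F d b J0 Y) (hZ : CovX G F d b J0 Z) :
    CovX G F d b J0 (Y ∪ Z) := by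
  obtain ⟨Φ, k, C, h1, h2, h3⟩ := hY
  obtain ⟨Φ', k', C', h1', h2', h3'⟩ := hZ
  refine ⟨Φ * Φ', k + k', max C C', mul_ne_zero h1 h1', h2.mul h2', ?_⟩
  intro x hx hg hΦ hG hF
  rw [map_mul] at hΦ
  rcases hx with hx | hx
  · exact (h3 x hx hg (left_ne_zero_of_mul hΦ) hG hF).mono (le_max_left C C')
  · exact (h3' x hx hg (right_ne_zero_of_mul hΦ) hG hF).mono (le_max_right C C')

theorem CovX.biUnion {ι : Type} {S : Set ι} (hS : S.Finite) (Y : ι → Set (Fin ν → ℤ))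
    (h : ∀ i ∈ S, CovX G F d b J0 (Y i)) : CovX G F d b J0 (⋃ i ∈ S, Y i) := by
  classical
  induction S, hS using Set.Finite.induction_on with
  | empty =>
    rw [Set.biUnion_empty]
    exact CovX.empty
  | insert _ _ ih =>
    rw [Set.biUnion_insert]
    exact (h _ (Set.mem_insert _ _)).union (ih fun i hi => h i (Set.mem_insert_of_mem _ hi))

end

theorem cov_ptsX (hν : ν = n + s) (b : ℕ) (hb : 2 ≤ b) (D W A₁ : ℕ) (hD : 1 ≤ D) (hn : n ≤ D)
    (c : Fin ν → Fin r → ℤ) (m : Fin r → ℕ)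
    (R : Set ((Fin r → Fin (D + 1)) × (Fin r → Fin (D + 1)))) (AR : Finset (Fin r → ℕ))
    (hA1 : ∀ a ∈ AR, R ⊆ Rel D a)
    (hA2 : ∀ a : Fin r → ℕ, R ⊆ Rel D a → ∃ κ : AR → ℚ, ∀ j, ∑ y, κ y * (y.1 j : ℚ) = a j)
    (G : Fin g → MvPolynomial (Fin ν) ℤ) (e : Fin g → ℕ) (hG : ∀ k, (G k).IsHomogeneous (e k))
    (heD : ∀ k, e k ≤ D)
    (F : Fin q → Fin w → MvPolynomial (Fin ν) ℤ) (d : Fin q → Fin w → ℕ)
    (hF : ∀ i j, (F i j).IsHomogeneous (d i j)) (hdD : ∀ i j, d i j ≤ D)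
    (hnc : NCInt s G F) (J0 : Fin n → Fin ν)
    (hW1 : 1 ≤ W) (hW : ∀ i, nz (li (c i)) ≤ W)
    (hWF : ∀ i j, nz (bind₁ (fun i => li (c i)) (F i j)) ≤ W)
    (hWG : ∀ k, nz (bind₁ (fun i => li (c i)) (G k)) ≤ W)
    (hWJ : ∀ a : Fin n → Fin r → ℕ, (∀ k, a k ∈ AR) → ∀ J : Fin n → Fin ν,
      nz (jac (fun i => c (J i)) a) ≤ W) :
    CovX G F d b J0 (Pts b D W A₁ c m R) := by
  classical
  by_cases hR : ∃ l₀ : Fin r → ℕ, Rel D l₀ = R
  · obtain ⟨l₀, rfl⟩ := hR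
    rcases dichX b hb D hn (fun i => c (J0 i)) m l₀ AR hA1 hA2 with
      ⟨a, ha1, ha2⟩ | ⟨Φ, hΦ, hΦ2⟩
    · refine ⟨1, 0, n * Real.log 2 + Real.log ((W * b ^ (D * A₁) : ℕ) : ℝ) +
        ∑ _i : Fin q, ((D + 1) * Real.log ((W * b ^ (D * A₁) : ℕ) : ℝ) + Real.log 2),
        one_ne_zero, isHomogeneous_one _ _, ?_⟩
      rintro x ⟨l, A, hl, hA, hm, hgap, hx⟩ hg _ hGx hFx
      intro AA hAA hGA
      have h1 := fin_ineqX hν b hb m l c a D hD hn (fun k => comp_of_rel (by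
        rw [hl]
        exact hA1 _ (ha1 k))) G e hG heD F d hF hdD hnc J0 (ha2 l hl) W A hW1 hW hWF hWG
        (hWJ a ha1) hm hgap x hx hg hGx hFx _ rfl AA hAA hGA
      refine h1.trans ?_
      have h2 : Real.log ((W * b ^ (D * A) : ℕ) : ℝ) ≤ Real.log ((W * b ^ (D * A₁) : ℕ) : ℝ) := by
        apply Real.log_le_log
        · have : 0 < W * b ^ (D * A) := Nat.mul_pos hW1 (Nat.pow_pos (by omega))
          exact_mod_cast this
        · have : W * b ^ (D * A) ≤ W * b ^ (D * A₁) :=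
            Nat.mul_le_mul_left _ (Nat.pow_le_pow_right (by omega) (Nat.mul_le_mul_left _ hA))
          exact_mod_cast this
      have h3 : ∑ _i : Fin q, (((D : ℝ) + 1) * Real.log ((W * b ^ (D * A) : ℕ) : ℝ) +
          Real.log 2) ≤ ∑ _i : Fin q, (((D : ℝ) + 1) * Real.log ((W * b ^ (D * A₁) : ℕ) : ℝ) +
          Real.log 2) := by
        refine Finset.sum_le_sum fun i _ => ?_
        have := mul_le_mul_of_nonneg_left h2 (by positivity : (0 : ℝ) ≤ (D : ℝ) + 1)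
        linarith
      linarith
    · obtain ⟨k, hk⟩ : ∃ k, homogeneousComponent k Φ ≠ 0 := by
        by_contra hcon
        push Not at hcon
        apply hΦ
        rw [← sum_homogeneousComponent Φ]
        exact Finset.sum_eq_zero fun k _ => hcon k
      refine ⟨homogeneousComponent k Φ, k, 0, hk, homogeneousComponent_isHomogeneous k Φ, ?_⟩
      rintro x ⟨l, A, hl, hA, hm, hgap, hx⟩ hg hne hGx hFx
      exfalso
      apply hne
      have h1 := homog_comp Φ b hb (fun i => (x (J0 i) : ℝ)) (by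
        intro τ
        have h2 := hΦ2 l hl τ
        have h3 : (fun i => (b : ℝ) ^ τ * (x (J0 i) : ℝ)) = fun i => (b : ℝ) ^ τ *
            ((∑ j, c (J0 i) j * (b : ℤ) ^ (m j + l j) : ℤ) : ℝ) := by
          funext i
          rw [hx (J0 i)]
        rw [h3]
        exact h2) k
      have h4 : aeval (fun i => (x (J0 i) : ℝ)) (homogeneousComponent k Φ) =
          algebraMap ℚ ℝ (eval (fun i => (x (J0 i) : ℚ)) (homogeneousComponent k Φ)) := by
        have h5 : (fun i => (x (J0 i) : ℝ)) =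
            (algebraMap ℚ ℝ) ∘ (fun i => (x (J0 i) : ℚ)) := by
          funext i
          simp
        rw [h5, aeval_algebraMap_apply]
        congr 1
      rw [h4] at h1
      exact (map_eq_zero _).1 h1
  · refine CovX.mono CovX.empty ?_
    rintro x ⟨l, A, hl, _⟩
    exact absurd ⟨l, hl⟩ hR

theorem exists_bound {α ι : Type} [Fintype ι] {S : Set α} (hS : S.Finite) (f : α → ι → ℤ)
    (h0 : ∀ a i, 0 ≤ f a i) : ∃ W : ℕ, ∀ a ∈ S, ∀ i, f a i ≤ W := by
  classical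
  obtain ⟨W, hW⟩ := (hS.image (fun a => ∑ i, f a i)).bddAbove
  refine ⟨W.natAbs, fun a ha i => ?_⟩
  have h1 : f a i ≤ W := (Finset.single_le_sum (f := fun i => f a i) (fun i _ => h0 a i)
    (mem_univ i)).trans (hW ⟨a, ha, rfl⟩)
  omega

/-- **Main theorem.** -/
theorem mainX (hν : ν = n + s)
    (G : Fin g → MvPolynomial (Fin ν) ℤ) (e : Fin g → ℕ) (hG : ∀ k, (G k).IsHomogeneous (e k))
    (F : Fin q → Fin w → MvPolynomial (Fin ν) ℤ) (d : Fin q → Fin w → ℕ)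
    (hF : ∀ i j, (F i j).IsHomogeneous (d i j))
    (hnc : NCInt s G F) (J0 : Fin n → Fin ν) (b r B : ℕ) (hb : 2 ≤ b) :
    CovX G F d b J0 {x | ∃ (e : Fin r → ℕ) (v : Fin r → Fin ν → ℤ), (∀ j i, |v j i| ≤ B) ∧
      ∀ i, x i = ∑ j, v j i * (b : ℤ) ^ (e j)} := by
  classical
  set D : ℕ := univ.sup (fun i => univ.sup (d i)) + univ.sup e + n + 1 with hDdef
  have hD : 1 ≤ D := by omega
  have hn : n ≤ D := by omega
  have hdD : ∀ i j, d i j ≤ D := fun i j => by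
    have h1 := Finset.le_sup (f := fun i => univ.sup (d i)) (mem_univ i)
    have h2 := Finset.le_sup (f := d i) (mem_univ j)
    omega
  have heD : ∀ k, e k ≤ D := fun k => by
    have h2 := Finset.le_sup (f := e) (mem_univ k)
    omega
  set CC : Set (Fin ν → Fin r → ℤ) := Set.Icc (fun _ _ => -(B : ℤ)) (fun _ _ => (B : ℤ)) with hCC
  have hCCfin : CC.Finite := Set.finite_Icc _ _
  choose AR hAR1 hAR2 using exists_span (r := r) D
  let big : Finset (Fin r → ℕ) := Finset.univ.biUnion AR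
  obtain ⟨W1, hW1⟩ := exists_bound hCCfin (fun c i => nz (li (c i))) (fun _ _ => nz_nonneg _)
  obtain ⟨W2, hW2⟩ := exists_bound hCCfin
    (fun c (y : Fin q × Fin w) => nz (bind₁ (fun i => li (c i)) (F y.1 y.2)))
    (fun _ _ => nz_nonneg _)
  obtain ⟨W3, hW3⟩ := exists_bound hCCfin (fun c k => nz (bind₁ (fun i => li (c i)) (G k)))
    (fun _ _ => nz_nonneg _)
  obtain ⟨W4, hW4⟩ := exists_bound hCCfin
    (fun c (y : {a // a ∈ Fintype.piFinset (fun _ : Fin n => big)} × (Fin n → Fin ν)) =>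
      nz (jac (fun i => c (y.2 i)) y.1.1)) (fun _ _ => nz_nonneg _)
  set W : ℕ := W1 + W2 + W3 + W4 + 1 with hWdef
  obtain ⟨A₁, hA₁⟩ := scale_split (r := r) D (b * D + W + 1)
  set MM : Set (Fin r → ℕ) := Set.Icc (fun _ => 0) (fun _ => A₁) with hMM
  have hMMfin : MM.Finite := Set.finite_Icc _ _
  have hcov : CovX G F d b J0 (⋃ c ∈ CC, ⋃ m ∈ MM, ⋃ R ∈ (Set.univ :
      Set (Set ((Fin r → Fin (D + 1)) × (Fin r → Fin (D + 1))))), Pts b D W A₁ c m R) := by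
    refine CovX.biUnion hCCfin _ fun c hc => CovX.biUnion hMMfin _ fun m _ =>
      CovX.biUnion (Set.toFinite _) _ fun R _ => ?_
    refine cov_ptsX hν b hb D W A₁ hD hn c m R (AR R) (hAR1 R) (hAR2 R) G e hG heD F d hF hdD hnc
      J0 (by omega) (fun i => ?_) (fun i j => ?_) (fun k => ?_) (fun a ha J => ?_)
    · have := hW1 c hc i
      push_cast [hWdef]
      linarith
    · have := hW2 c hc (i, j)
      push_cast [hWdef]
      linarith
    · have := hW3 c hc k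
      push_cast [hWdef]
      linarith
    · have := hW4 c hc (⟨a, Fintype.mem_piFinset.2 fun k =>
        Finset.mem_biUnion.2 ⟨R, mem_univ _, ha k⟩⟩, J)
      push_cast [hWdef]
      linarith
  refine hcov.mono ?_
  rintro x ⟨e, v, hv, hx⟩
  obtain ⟨A, m, l, hA, hml, hm, hgap⟩ := hA₁ e
  simp only [Set.mem_iUnion]
  refine ⟨fun i j => v j i, ?_, m, ?_, Rel D l, Set.mem_univ _, l, A, rfl, hA, hm, hgap, ?_⟩
  · rw [hCC, Set.mem_Icc]
    exact ⟨fun i j => (abs_le.1 (hv j i)).1, fun i j => (abs_le.1 (hv j i)).2⟩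
  · rw [hMM, Set.mem_Icc]
    exact ⟨fun j => Nat.zero_le _, fun j => (hm j).trans hA⟩
  · intro i
    rw [hx i]
    exact Finset.sum_congr rfl fun j _ => by rw [hml]

end Pool.Agent.TH585.VF
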